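import Pool.Agent.MP_1246c0_nt.H12.SpecA
import Pool.Agent.MP_28f2cb_lc.H85.HF

/-! Elements supported on the ramified primes become norms in the next layer. -/

namespace Pool.Agent.MP_1246c0_nt.H12

open NumberField IsDedekindDomain WithZero Pool.Agent.MP_db5b97_nt.H85

namespace HN

/-- elements of a proper subfield of index two of a finite field are squares -/
theorem ff {κ : Type} [Field κ] [Finite κ] (τ : κ →+* κ) {t u : κ} (h1 : τ t ≠ t)
    (h2 : τ (t ^ 2) = t ^ 2) (hu : τ u = u) : IsSquare u := by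
  classical
  let K := τ.eqLocusField (RingHom.id κ)
  have : Fintype K := Fintype.ofFinite K
  have ht : t ≠ 0 := fun h => h1 (by simp [h])
  let a : K := ⟨u, hu⟩
  let b : K := ⟨t ^ 2, h2⟩
  have hb : ¬IsSquare b := by
    rintro ⟨z, hz⟩
    have e0 : t ^ 2 = (z : κ) * z := congrArg Subtype.val hz
    have e : t ^ 2 = (z : κ) ^ 2 := by rw [e0, sq]
    have hz' : τ z = z := z.2
    rcases sq_eq_sq_iff_eq_or_eq_neg.1 e with h | h
    · exact h1 (by rw [h, hz'])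
    · exact h1 (by rw [h, map_neg, hz'])
  by_cases ha : IsSquare a
  · exact ha.map K.subtype
  · have h3 : quadraticChar K (a * b) = 1 := by
      rw [map_mul, quadraticChar_neg_one_iff_not_isSquare.2 ha,
        quadraticChar_neg_one_iff_not_isSquare.2 hb]
      norm_num
    have h0 : a * b ≠ 0 := fun h => by simp [h] at h3
    obtain ⟨z, hz⟩ := (quadraticChar_one_iff_isSquare h0).1 h3
    have e : u * t ^ 2 = z * z := congrArg Subtype.val hz
    refine ⟨z / t, ?_⟩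
    field_simp
    rw [e, sq]

section Val

variable {k : Type} [Field k] (v : Valuation k ℤᵐ⁰)

/-- the method of Newton for a quadratic polynomial -/
theorem newton {p c y : k} (h2 : v 2 ≤ 1) (hd : v (2 * y + p) = 1)
    (hf : v (y ^ 2 + p * y - c) < 1) {δ : ℤᵐ⁰} (hδ : δ ≠ 0) :
    ∃ z, v (z ^ 2 + p * z - c) ≤ δ := by
  generalize hr : v (y ^ 2 + p * y - c) = r at hf
  have key : ∀ n : ℕ, ∃ z, v (2 * z + p) = 1 ∧ v (z ^ 2 + p * z - c) ≤ r ^ (n + 1) := by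
    intro n
    induction n with
    | zero => exact ⟨y, hd, by simp [hr]⟩
    | succ n ih =>
      obtain ⟨z, hz, hf'⟩ := ih
      have h0 : 2 * z + p ≠ 0 := fun h => by simp [h] at hz
      have hle : r ^ (n + 1) ≤ r := pow_le_of_le_one zero_le hf.le (by omega)
      obtain ⟨h, hh⟩ : ∃ h, h * (2 * z + p) = z ^ 2 + p * z - c := ⟨_, div_mul_cancel₀ _ h0⟩
      have hv : v h ≤ r ^ (n + 1) := by
        rw [← hh, map_mul, hz, mul_one] at hf'
        exact hf'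
      refine ⟨z - h, ?_, ?_⟩
      · have e : 2 * (z - h) + p = (2 * z + p) + -(2 * h) := by ring
        rw [e, v.map_add_eq_of_lt_left, hz]
        rw [hz, v.map_neg, map_mul]
        exact mul_lt_one_of_nonneg_of_lt_one_right h2 zero_le ((hv.trans hle).trans_lt hf)
      · have e : (z - h) ^ 2 + p * (z - h) - c = h * h := by linear_combination -hh
        rw [e, map_mul, pow_succ r (n + 1)]
        exact mul_le_mul' hv (hv.trans hle)
  obtain ⟨n, hn⟩ := exists_pow_lt₀ hf (Units.mk0 δ hδ)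
  obtain ⟨z, -, hz⟩ := key n
  exact ⟨z, hz.trans ((pow_le_pow_of_le_one zero_le hf.le (by omega)).trans hn.le)⟩

/-- the condition is open -/
theorem opn {d x a b : k} (hd : v d ≤ 1) (h2 : v 2 ≤ 1) {δ : ℤᵐ⁰} (hδ : δ ≠ 0)
    (h : v (x - (a ^ 2 - d * b ^ 2)) ≤ δ) : ∃ η : ℤᵐ⁰, η ≠ 0 ∧ ∀ a' b', v (a' - a) ≤ η →
      v (b' - b) ≤ η → v (x - (a' ^ 2 - d * b' ^ 2)) ≤ δ := by
  obtain ⟨K, h1, ha, hb⟩ : ∃ K : ℤᵐ⁰, 1 ≤ K ∧ v a ≤ K ∧ v b ≤ K :=
    ⟨max 1 (max (v a) (v b)), by simp, by simp, by simp⟩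
  have hK : 0 < K := zero_lt_one.trans_le h1
  have key : ∀ c c' : k, v c ≤ K → v (c' - c) ≤ min 1 (δ / K) → v (c' ^ 2 - c ^ 2) ≤ δ := by
    intro c c' hc h'
    have e : c' ^ 2 - c ^ 2 = (c' - c) * ((c' - c) + 2 * c) := by ring
    have h3 : v ((c' - c) + 2 * c) ≤ K := by
      refine v.map_add_le ((h'.trans (min_le_left _ _)).trans h1) ?_
      rw [map_mul]
      exact (mul_le_of_le_one_left' h2).trans hc
    rw [e, map_mul]
    calc _ ≤ δ / K * K := mul_le_mul' (h'.trans (min_le_right _ _)) h3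
      _ = δ := div_mul_cancel₀ _ hK.ne'
  refine ⟨min 1 (δ / K), (lt_min zero_lt_one (div_pos (zero_lt_iff.2 hδ) hK)).ne',
    fun a' b' ha' hb' => ?_⟩
  have e : x - (a' ^ 2 - d * b' ^ 2) =
      x - (a ^ 2 - d * b ^ 2) - (a' ^ 2 - a ^ 2) + d * (b' ^ 2 - b ^ 2) := by ring
  rw [e]
  refine v.map_add_le (v.map_sub_le h (key _ _ ha ha')) ?_
  rw [map_mul]
  exact (mul_le_of_le_one_left' hd).trans (key _ _ hb hb')

/-- the dyadic place -/
theorem loc2 [CharZero k] (h2 : v 2 < 1) (hn : ∀ n : ℕ, v n ≤ 1) (hr : ∀ u, v u = 1 → v (u - 1) < 1)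
    {d : ℕ} (hd : d % 8 = 5) {x t : k} (ht : t ≠ 0) (hx : v x = v t ^ 2) {δ : ℤᵐ⁰} (hδ : δ ≠ 0) :
    ∃ a b, v (x - (a ^ 2 - d * b ^ 2)) ≤ δ := by
  obtain ⟨e, rfl⟩ : ∃ e, d = 8 * e + 5 := ⟨d / 8, by omega⟩
  have hv : 0 < v t ^ 2 := pow_pos (zero_lt_iff.2 (by simpa using ht)) 2
  have hu : v (x / t ^ 2) = 1 := by rw [map_div₀, map_pow, hx, div_self hv.ne']
  have hc : v (0 ^ 2 + 1 * 0 - (x / t ^ 2 + (2 * e + 1))) < 1 := by
    have e1 : (0 : k) ^ 2 + 1 * 0 - (x / t ^ 2 + (2 * e + 1)) =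
        -(x / t ^ 2 - 1 + 2 * ((e + 1 : ℕ) : k)) := by
      push_cast
      ring
    rw [e1, v.map_neg]
    refine v.map_add_lt (hr _ hu) ?_
    rw [map_mul]
    exact mul_lt_one_of_lt_of_le h2 (hn _)
  obtain ⟨y, hy⟩ := newton v h2.le (by simp) hc (div_pos (zero_lt_iff.2 hδ) hv).ne'
  refine ⟨t * (2 * y + 1) / 2, t / 2, ?_⟩
  have e2 : x - ((t * (2 * y + 1) / 2) ^ 2 - ((8 * e + 5 : ℕ) : k) * (t / 2) ^ 2) =
      -((y ^ 2 + 1 * y - (x / t ^ 2 + (2 * e + 1))) * t ^ 2) := by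
    push_cast
    field_simp
    ring
  rw [e2, v.map_neg, map_mul, map_pow]
  exact (le_div_iff₀ hv).1 hy

/-- the ramified places -/
theorem locp (h2 : v 2 = 1) {d u z : k} (hd : d ≠ 0) (e : ℤ) (hu : v u = 1)
    (hz : v (u - z ^ 2) < 1) {δ : ℤᵐ⁰} (hδ : δ ≠ 0) :
    ∃ a b, v ((-d) ^ e * u - (a ^ 2 - d * b ^ 2)) ≤ δ := by
  have hd' : -d ≠ 0 := neg_ne_zero.2 hd
  have hv : 0 < v ((-d) ^ e) := zero_lt_iff.2 (v.ne_zero_iff.2 (zpow_ne_zero e hd'))
  have hz1 : v z = 1 := by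
    have : v (z ^ 2) = 1 := by
      have e1 : z ^ 2 = u + -(u - z ^ 2) := by ring
      rw [e1, v.map_add_eq_of_lt_left, hu]
      rwa [hu, v.map_neg]
    rw [map_pow] at this
    exact (pow_eq_one_iff_of_nonneg zero_le two_ne_zero).1 this
  obtain ⟨y, hy⟩ := newton v (p := 0) (c := u) (y := z) h2.le (by simp [h2, hz1])
    (by rw [zero_mul, add_zero, v.map_sub_swap]; exact hz) (div_pos (zero_lt_iff.2 hδ) hv).ne'
  rw [zero_mul, add_zero, v.map_sub_swap, le_div_iff₀ hv, ← map_mul] at hy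
  obtain ⟨i, rfl | rfl⟩ := Int.even_or_odd' e
  · refine ⟨(-d) ^ i * y, 0, ?_⟩
    have e1 : (-d) ^ (2 * i) * u - (((-d) ^ i * y) ^ 2 - d * 0 ^ 2) =
        (u - y ^ 2) * (-d) ^ (2 * i) := by
      rw [mul_comm 2 i, zpow_mul, zpow_ofNat]
      ring
    rwa [e1]
  · refine ⟨0, (-d) ^ i * y, ?_⟩
    have e1 : (-d) ^ (2 * i + 1) * u - (0 ^ 2 - d * ((-d) ^ i * y) ^ 2) =
        (u - y ^ 2) * (-d) ^ (2 * i + 1) := by
      rw [zpow_add_one₀ hd', mul_comm 2 i, zpow_mul, zpow_ofNat]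
      ring
    rwa [e1]

/-- the other places -/
theorem loc0 {d a b : k} (hd : v d = 1) :
    (∃ z : k, v (a ^ 2 - d * b ^ 2) = v z ^ 2) ∨ ∃ c : k, v c ≤ 1 ∧ v (d - c ^ 2) < 1 := by
  by_cases hb : b = 0
  · exact Or.inl ⟨a, by simp [hb]⟩
  have hb' : 0 < v b := zero_lt_iff.2 (by simpa using hb)
  rcases lt_or_ge (v b) (v a) with h | h
  · refine Or.inl ⟨a, ?_⟩
    rw [v.map_sub_eq_of_lt_left, map_pow]
    rw [map_mul, hd, one_mul, map_pow, map_pow]
    exact pow_lt_pow_left₀ h zero_le two_ne_zero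
  · have hc : v (a / b) ≤ 1 := by rwa [map_div₀, div_le_one₀ hb']
    have h1 : v (d - (a / b) ^ 2) ≤ 1 :=
      v.map_sub_le hd.le (by rw [map_pow]; exact pow_le_one₀ zero_le hc)
    rcases h1.lt_or_eq with h1 | h1
    · exact Or.inr ⟨_, hc, h1⟩
    · refine Or.inl ⟨b, ?_⟩
      have e : a ^ 2 - d * b ^ 2 = -((d - (a / b) ^ 2) * b ^ 2) := by
        field_simp
        ring
      rw [e, v.map_neg, map_mul, h1, one_mul, map_pow]

end Val

section Glob

variable {k : Type} [Field k] [NumberField k]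

/-- weak approximation -/
theorem wa {l : ℕ} (hl : l ≠ 0) (a : Pl k l → k) (η : Pl k l → ℤᵐ⁰) (hη : ∀ v, η v ≠ 0) :
    ∃ x : k, ∀ v : Pl k l, v.1.valuation k (x - a v) ≤ η v := by
  classical
  have := Pl_finite (F := k) hl
  have := Fintype.ofFinite (Pl k l)
  obtain ⟨c, hc⟩ := IsLocalization.exist_integer_multiples_of_finite (nonZeroDivisors (𝓞 k)) a
  choose n hn using hc
  have hc0 : ((c : 𝓞 k) : k) ≠ 0 := by simp
  have hv : ∀ v : Pl k l, 0 < v.1.valuation k (c : 𝓞 k) := fun v => zero_lt_iff.2 (by simp)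
  obtain ⟨y, hy⟩ := IsDedekindDomain.exists_forall_sub_mem_ideal (s := Finset.univ)
    (fun v : Pl k l => v.1.asIdeal) (fun v => (-log (η v * v.1.valuation k (c : 𝓞 k))).toNat)
    (fun v _ => v.1.prime) (fun v _ w _ h h' => h (Subtype.ext (HeightOneSpectrum.ext h')))
    fun v => n v.1
  refine ⟨(y : k) / (c : 𝓞 k), fun v => ?_⟩
  have h1 := (v.1.intValuation_le_pow_iff_mem _ _).2 (hy v (Finset.mem_univ _))
  have e : (y : k) / (c : 𝓞 k) - a v = ((y - n v : 𝓞 k) : k) / (c : 𝓞 k) := by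
    have := hn v
    rw [Algebra.smul_def] at this
    rw [eq_div_iff hc0, sub_mul, div_mul_cancel₀ _ hc0]
    exact (congrArg _ ((mul_comm _ _).trans this.symm)).trans (map_sub (algebraMap _ k) _ _).symm
  rw [e, map_div₀, div_le_iff₀ (hv v), val_coe]
  refine h1.trans ?_
  rw [← exp_log (mul_ne_zero (hη v) (hv v).ne'), exp_le_exp, log_exp]
  omega

/-- from the places dividing `2 d` to the field -/
theorem glob {d : ℕ} (hd : 0 < d) {x : k} (hx : x ≠ 0)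
    (hne : ∃ v : Sp k, ((2 * d : ℕ) : 𝓞 k) ∈ v.asIdeal)
    (hout : ∀ v : Sp k, ((2 * d : ℕ) : 𝓞 k) ∉ v.asIdeal → v.valuation k x = 1)
    (hin : ∀ v : Sp k, ((2 * d : ℕ) : 𝓞 k) ∈ v.asIdeal → ∀ δ : ℤᵐ⁰, δ ≠ 0 →
      ∃ a b, v.valuation k (x - (a ^ 2 - d * b ^ 2)) ≤ δ) :
    ∃ Y Z : k, x = Y ^ 2 - d * Z ^ 2 := by
  have hl : 2 * d ≠ 0 := by omega
  have hx' : ∀ v : Sp k, 0 < v.valuation k x := fun v => zero_lt_iff.2 (by simpa using hx)
  have hδ : ∀ v : Sp k, v.valuation k ((2 * d : ℕ) : k) ^ 3 * v.valuation k x ≠ 0 := fun v =>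
    mul_ne_zero (pow_ne_zero _ ((Valuation.ne_zero_iff _).2 (by exact_mod_cast hl))) (hx' v).ne'
  have h1 : ∀ v : Pl k (2 * d), ∃ a b : k, ∃ η : ℤᵐ⁰, η ≠ 0 ∧ ∀ a' b',
      v.1.valuation k (a' - a) ≤ η → v.1.valuation k (b' - b) ≤ η →
      v.1.valuation k (x - (a' ^ 2 - d * b' ^ 2)) ≤
        v.1.valuation k ((2 * d : ℕ) : k) ^ 3 * v.1.valuation k x := fun v => by
    obtain ⟨a, b, h⟩ := hin v.1 v.2 _ (hδ v.1)
    exact ⟨a, b, opn _ (val_nat_le_one v.1 d) (by simpa using val_nat_le_one v.1 2) (hδ v.1) h⟩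
  choose a0 b0 η hη h1 using h1
  obtain ⟨a, ha⟩ := wa hl a0 η hη
  obtain ⟨b, hb⟩ := wa hl b0 η hη
  have h2 : ∀ v : Sp k, ((2 * d : ℕ) : 𝓞 k) ∈ v.asIdeal → v.valuation k (x - (a ^ 2 - d * b ^ 2)) ≤
      v.valuation k ((2 * d : ℕ) : k) ^ 3 * v.valuation k x := fun v hv =>
    h1 ⟨v, hv⟩ a b (ha _) (hb _)
  generalize hq : a ^ 2 - d * b ^ 2 = q at h2
  have h3 : ∀ v : Sp k, ((2 * d : ℕ) : 𝓞 k) ∈ v.asIdeal → v.valuation k q = v.valuation k x := by
    intro v hv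
    have e : q = x + -(x - q) := by ring
    rw [e, Valuation.map_add_eq_of_lt_left]
    rw [Valuation.map_neg]
    exact (h2 v hv).trans_lt (mul_lt_of_lt_one_left (hx' v)
      (pow_lt_one₀ zero_le (val_nat_lt_one hv) (by omega)))
  have hq0 : q ≠ 0 := by
    obtain ⟨v, hv⟩ := hne
    intro h
    have := h3 v hv
    rw [h, map_zero] at this
    exact (hx' v).ne this
  have hu : ∀ v : Sp k, ((2 * d : ℕ) : 𝓞 k) ∉ v.asIdeal → v.valuation k (d : k) = 1 := by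
    intro v hv
    have : (d : 𝓞 k) ∉ v.asIdeal := fun h => hv (by
      rw [Nat.cast_mul]
      exact Ideal.mul_mem_left _ _ h)
    simpa using (val_eq_one_iff v d).2 this
  obtain ⟨Y, Z, h⟩ := MP_28f2cb_lc.H85.CF.HN (k := k) d (by exact_mod_cast hd) (2 * d) hl
    (dvd_mul_right 2 d) (by simpa using hu) (x / q) (div_ne_zero hx hq0) (fun v hv => by
      rw [div_sub_one hq0, map_div₀, h3 v hv, div_le_iff₀ (hx' v)]
      exact h2 v hv) (fun v hv => by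
      rcases loc0 (v.valuation k) (a := a) (b := b) (hu v hv) with ⟨z, hz⟩ | h
      · refine Or.inl ⟨z⁻¹, ?_⟩
        rw [map_div₀, hout v hv, ← hq, hz, map_inv₀, inv_pow, one_div]
      · exact Or.inr (by simpa using h))
  refine ⟨Y * a + d * Z * b, Y * b + Z * a, ?_⟩
  rw [div_eq_iff hq0, ← hq] at h
  push_cast at h
  rw [h]
  ring

end Glob

section Cyc

variable {k : Type} [Field k] [NumberField k] {m : ℕ} {θ : k} {γ : k ≃ₐ[ℚ] k}

/-- elements of the layer below -/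
theorem below (hC : SCY) (h : Cy k (m + 1) θ γ) : (γ ^ 2 ^ m) (θ ^ 2) = θ ^ 2 ∧
    ∀ x : Un k, (γ ^ 2 ^ m) x.val = x.val → ∀ w : Sp k, ((2 : ℕ) : 𝓞 k) ∈ w.asIdeal →
      Even (ord w x) := by
  obtain ⟨k0, _, _, θ0, γ0, h0⟩ := hC.ex m
  obtain ⟨j, hj, -, hr⟩ := hC.emb k0 k m (m + 1) θ0 γ0 θ γ h0 h (by omega)
  refine ⟨?_, fun x hx w hw => ?_⟩
  · have h1 := (hr _).1 ⟨θ0, hj⟩
    rw [Nat.add_sub_cancel_left, Function.iterate_one, tw, map_sub, map_ofNat] at h1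
    exact sub_left_injective h1
  · obtain ⟨x0, hx0⟩ := (hr _).2 hx
    have hx1 : x0 ≠ 0 := fun e => x.val_ne (by rw [← hx0, e, map_zero])
    let := j.toAlgebra
    obtain ⟨-, w0, a0, -, b0, -⟩ := hC.two k0 m θ0 γ0 h0
    obtain ⟨-, w1, a1, -, b1, -⟩ := hC.two k (m + 1) θ γ h
    have e1 := NT2.ord_inc k0 k w (Un.mk 2 two_ne_zero)
    rw [(a0 _).1 ((NT2.nat_mem k0 2 w).2 hw), b0 _ rfl, (a1 _).1 hw,
      b1 (Un.inc k0 k (Un.mk 2 two_ne_zero)) (map_ofNat (algebraMap k0 k) 2), pow_succ',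
      ← (a1 _).1 hw] at e1
    have e2 := mul_right_cancel₀ (pow_ne_zero m two_ne_zero) e1
    have e3 : x = Un.inc k0 k (Un.mk x0 hx1) := Un.ext hx0.symm
    rw [e3, NT2.ord_inc, ← e2]
    exact even_two_mul _

/-- units of the layer below are squares at the primes that are inert in the last step -/
theorem sqr (hC : SCY) (h : Cy k (m + 1) θ γ) (v : Sp k) (h2 : ((2 : ℕ) : 𝓞 k) ∉ v.asIdeal)
    (hv : γ ^ 2 ^ m • v = v) {u : k} (hu : v.valuation k u ≤ 1) (hτ : (γ ^ 2 ^ m) u = u) :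
    ∃ z, v.valuation k (u - z ^ 2) < 1 := by
  obtain ⟨-, -, ho, hi⟩ := hC.gal k (m + 1) θ γ h
  have h1 : ¬v.valuation k ((γ ^ 2 ^ m) θ - θ) < 1 := fun h' => by
    have := orderOf_dvd_of_pow_eq_one (hC.dist k (m + 1) θ γ h ⟨v, h2⟩ _ h')
    rw [ho, Nat.pow_dvd_pow_iff_le_right one_lt_two] at this
    omega
  have h3 := (below hC h).1
  generalize γ ^ 2 ^ m = τ at *
  have hval : ∀ x : k, v.valuation k (τ x) = v.valuation k x := fun x => by
    have := MP_28f2cb_lc.H85.CF.val_smul τ v x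
    rwa [hv] at this
  let φ : 𝓞 k →+* 𝓞 k := MulSemiringAction.toRingHom _ _ τ
  have hφ : ∀ x : 𝓞 k, (φ x : k) = τ x := fun _ => rfl
  have hle : v.asIdeal ≤ v.asIdeal.comap φ := fun x hx => by
    rw [Ideal.mem_comap, ← val_lt_one_iff, hφ, hval, val_lt_one_iff]
    exact hx
  have := v.isMaximal
  let := Ideal.Quotient.field v.asIdeal
  have : Finite (𝓞 k ⧸ v.asIdeal) := Ideal.finiteQuotientOfFreeOfNeBot _ v.ne_bot
  have hq : ∀ a b : 𝓞 k, Ideal.Quotient.mk v.asIdeal a = Ideal.Quotient.mk v.asIdeal b ↔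
      v.valuation k (a - b) < 1 := fun a b => by
    rw [Ideal.Quotient.eq, ← val_lt_one_iff]
    rfl
  obtain ⟨n, hn⟩ := v.exists_valuation_sub_lt_of_integer hu 1
  replace hn : v.valuation k (n - u) < 1 := hn
  obtain ⟨z, hz⟩ := ff (Ideal.quotientMap v.asIdeal φ hle)
    (t := Ideal.Quotient.mk _ (⟨θ, hi⟩ : 𝓞 k)) (u := Ideal.Quotient.mk _ n)
    (by rw [Ideal.quotientMap_mk, Ne, hq]; exact h1)
    (by
      rw [← map_pow, Ideal.quotientMap_mk, hq, hφ]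
      exact (congrArg _ (sub_eq_zero.2 h3)).trans_lt (by simp))
    (by
      rw [Ideal.quotientMap_mk, hq, hφ]
      have e : τ n - n = τ (n - u) - (n - u) := by
        rw [map_sub, hτ]
        ring
      rw [e]
      exact Valuation.map_sub_lt _ (by rwa [hval]) hn)
  obtain ⟨z, rfl⟩ := Ideal.Quotient.mk_surjective z
  rw [← map_mul, hq] at hz
  refine ⟨z, ?_⟩
  have e : u - (z : k) ^ 2 = (n - (z * z : 𝓞 k)) - (n - u) := by
    push_cast
    ring
  rw [e]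
  exact Valuation.map_sub_lt _ hz hn

/-- the norm theorem in the layer over the rationals -/
theorem cyc (hC : SCY) (hD : SDEC) {d : ℕ} (hs : Squarefree d) (h8 : d % 8 = 5) (hm : am d ≤ m)
    (h : Cy k (m + 1) θ γ) (x : Un k) (hτ : (γ ^ 2 ^ m) x.val = x.val)
    (hout : ∀ v : Sp k, ((2 * d : ℕ) : 𝓞 k) ∉ v.asIdeal → v.valuation k x.val = 1) :
    ∃ Y Z : k, x.val = Y ^ 2 - d * Z ^ 2 := by
  obtain ⟨hϖ, w, a1, c1, -, r1⟩ := hC.two k (m + 1) θ γ h
  refine glob (by omega) x.val_ne ⟨w, ?_⟩ hout fun v hv δ hδ => ?_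
  · rw [Nat.cast_mul]
    exact Ideal.mul_mem_right _ _ ((a1 w).2 rfl)
  by_cases h2 : ((2 : ℕ) : 𝓞 k) ∈ v.asIdeal
  · obtain ⟨i, hi⟩ := (below hC h).2 x hτ v h2
    obtain rfl := (a1 v).1 h2
    refine loc2 _ (by simpa using val_nat_lt_one h2) (val_nat_le_one v) (fun u hu => ?_) h8
      (i • Un.mk _ hϖ).val_ne ?_ hδ
    · obtain ⟨n, hn⟩ := v.exists_valuation_sub_lt_of_integer hu.le 1
      replace hn : v.valuation k (n - u) < 1 := hn
      rcases r1 n with h' | h'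
      · have e : u = n - (n - u) := by ring
        refine absurd hu (ne_of_lt ?_)
        rw [e]
        exact Valuation.map_sub_lt _ ((val_lt_one_iff v n).2 h') hn
      · have e : u - 1 = (n - 1 : 𝓞 k) - (n - u) := by
          push_cast
          ring
        rw [e]
        exact Valuation.map_sub_lt _ ((val_lt_one_iff v _).2 h') hn
    · rw [← map_pow, ← Un.val_nsmul, val_eq_exp, val_eq_exp, map_nsmul, map_zsmul,
        (c1 (Un.mk _ hϖ) rfl).1, hi]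
      simp [two_mul]
  · have hd : (d : 𝓞 k) ∈ v.asIdeal := by
      rw [Nat.cast_mul] at hv
      exact (v.isPrime.mem_or_mem hv).resolve_left h2
    obtain ⟨p, hp, hpv⟩ : ∃ p ∈ d.primeFactors, (p : 𝓞 k) ∈ v.asIdeal := by
      have := v.isPrime
      rwa [← Nat.prod_primeFactors_of_squarefree hs, Nat.cast_prod,
        Ideal.IsPrime.prod_mem_iff] at hd
    have hl : lev p ≤ m := (Finset.le_sup (f := lev) hp).trans hm
    have hpp := Nat.prime_of_mem_primeFactors hp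
    obtain ⟨c, rfl⟩ := Nat.dvd_of_mem_primeFactors hp
    obtain ⟨d1, -, d2, -⟩ := hD.dec k (m + 1) θ γ h p v
      ⟨hpp, fun e => h2 (e ▸ hpv), Nat.zero_le _⟩ hpv
    have hp0 : (p : k) ≠ 0 := by exact_mod_cast hpp.ne_zero
    have hd0 : ((p * c : ℕ) : k) ≠ 0 := by exact_mod_cast hs.ne_zero
    have ho : ord v (Un.mk _ (neg_ne_zero.2 hd0)) = 1 := by
      rw [← d2 (Un.mk _ hp0) rfl, ord_apply, ord_apply, Un.val_mk, Un.val_mk, Valuation.map_neg,
        Nat.cast_mul, map_mul, val_coprime hpv (Nat.coprime_of_squarefree_mul hs).symm, mul_one]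
    have hu : v.valuation k (x - ord v x • Un.mk _ (neg_ne_zero.2 hd0)).val = 1 := by
      rw [← ord_eq_zero_iff, map_sub, map_zsmul, ho]
      simp
    rw [Un.val_sub, Un.val_zsmul, Un.val_mk] at hu
    obtain ⟨z, hz⟩ := sqr hC h v h2 ((d1 _).2 (pow_dvd_pow 2 ((min_le_left _ _).trans hl))) hu.le
      (by rw [map_div₀, map_zpow₀, map_neg, map_natCast, hτ])
    have := locp _ ((val_eq_one_iff v _).2 h2) hd0 (ord v x) hu hz hδ
    rwa [mul_div_cancel₀ _ (zpow_ne_zero _ (neg_ne_zero.2 hd0))] at this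

end Cyc

end HN

theorem rowHN : OfHN := by
  intro hC hD hT _ L _ _ d M m s θ σ γ hL hm hM x hσ hγ hx
  obtain ⟨k, _, _, θ', γ', h⟩ := hC.ex (m + 1)
  obtain ⟨j, -, hj, hr⟩ := hT.emb L k d M (m + 1) s θ σ γ θ' γ' hL h hM
  have hj' : ∀ (n : ℕ) (y : k), j ((γ' ^ n) y) = (γ ^ n) (j y) := fun n => by
    induction n with
    | zero => exact fun _ => rfl
    | succ n ih => exact fun y => by rw [pow_succ', pow_succ', AlgEquiv.mul_apply, hj, ih]; rfl
  have hs : ∀ n : ℕ, (γ ^ n) s = s := fun n => by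
    induction n with
    | zero => rfl
    | succ n ih => rw [pow_succ', AlgEquiv.mul_apply, ih, hL.gs]
  have g1 : (γ ^ 2 ^ m) x.val = x.val := congrArg Un.val hγ
  obtain ⟨x0, hx0⟩ := (hr x.val).2 ⟨congrArg Un.val hσ, by
    rw [pow_succ, pow_mul, sq, AlgEquiv.mul_apply, g1, g1]⟩
  have hx1 : x0 ≠ 0 := fun e => x.val_ne (by rw [← hx0, e, map_zero])
  obtain ⟨Y, Z, e⟩ := HN.cyc hC hD hL.sqf hL.md hm h (Un.mk x0 hx1)
    (j.injective (by rw [hj', Un.val_mk, hx0, g1])) fun v hv => by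
      let := j.toAlgebra
      obtain ⟨w, rfl⟩ := NT2.und_surj k L v
      rw [NT2.nat_mem, Nat.cast_mul] at hv
      have h1 := hx ⟨w, fun h' => hv (Ideal.mul_mem_right _ _ h')⟩
        fun h' => hv (Ideal.mul_mem_left _ _ h')
      have e3 : x = Un.inc k L (Un.mk x0 hx1) := Un.ext hx0.symm
      rw [dv_apply, e3, NT2.ord_inc] at h1
      rw [← ord_eq_zero_iff]
      exact (mul_eq_zero.1 h1).resolve_left (by exact_mod_cast NT2.ram_ne k w)
  obtain ⟨y1, y2⟩ := (hr _).1 ⟨Y, rfl⟩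
  obtain ⟨z1, z2⟩ := (hr _).1 ⟨Z, rfl⟩
  have e1 : (j Y + j Z * s) * σ (j Y + j Z * s) = x.val := by
    rw [map_add, map_mul, y1, z1, hL.ss, ← hx0, show x0 = _ from e, map_sub, map_mul, map_pow,
      map_pow, map_natCast, ← hL.sq]
    ring
  have h0 : j Y + j Z * s ≠ 0 := fun h' => x.val_ne (by rw [← e1, h', zero_mul])
  refine ⟨Un.mk _ h0, Un.ext ?_, Un.ext e1⟩
  show (γ ^ 2 ^ (m + 1)) (j Y + j Z * s) = j Y + j Z * s
  rw [map_add, map_mul, y2, z2, hs]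

end Pool.Agent.MP_1246c0_nt.H12
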