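import Pool.Agent.MP_1246c0_nt.H25.SpecG

/-! Closing a cube: the cocycle at the last vertex. -/

set_option autoImplicit false

namespace Pool.Agent.MP_1246c0_nt.H25

open Finset Matrix Pool.Agent.MP_db5b97_nt.H85
open Pool.Agent.MP_1246c0_nt.H12

namespace CLO

section Alt

variable {ι M : Type} [DecidableEq ι] [AddCommGroup M]

theorem mu_le {i j : ℕ} (h : i ≤ j) : Mu M j ≤ Mu M i := by
  rintro _ ⟨y, rfl⟩
  refine ⟨2 ^ (j - i) • y, ?_⟩
  change 2 ^ i • 2 ^ (j - i) • y = 2 ^ j • y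
  rw [← mul_smul, ← pow_add, Nat.add_sub_cancel' h]

theorem mu_map (f : Module.End ℤ M) {j : ℕ} {y : M} (h : y ∈ Mu M j) : f y ∈ Mu M j := by
  obtain ⟨z, rfl⟩ := mem_Mu.1 h
  exact mem_Mu.2 ⟨f z, (map_nsmul f _ _).symm⟩

theorem mu_smul {c : ℤ} {k j : ℕ} {y : M} (hc : (2 : ℤ) ^ k ∣ c) (h : y ∈ Mu M j) :
    c • y ∈ Mu M (k + j) := by
  obtain ⟨z, rfl⟩ := mem_Mu.1 h
  obtain ⟨c, rfl⟩ := hc
  refine mem_Mu.2 ⟨c • z, ?_⟩
  rw [← natCast_zsmul, ← natCast_zsmul z, smul_smul, smul_smul]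
  congr 1
  push_cast
  ring

theorem alt_split {D : Finset ι} {o : ι} (ho : o ∈ D) (F : Finset ι → M) :
    ∑ W ∈ D.powerset, (-1 : ℤ) ^ W.card • F W =
      ∑ W ∈ (D.erase o).powerset, (-1 : ℤ) ^ W.card • F W -
        ∑ W ∈ (D.erase o).powerset, (-1 : ℤ) ^ W.card • F (insert o W) := by
  conv_lhs => rw [← insert_erase ho, sum_powerset_insert (notMem_erase o D)]
  rw [sub_eq_add_neg, ← sum_neg_distrib]
  congr 1
  refine sum_congr rfl fun W hW => ?_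
  rw [card_insert_of_notMem fun h => notMem_erase o D (mem_powerset.1 hW h), pow_succ, mul_neg_one,
    neg_smul]

theorem alt_zero {D : Finset ι} {o : ι} (ho : o ∈ D) (F : Finset ι → M)
    (h : ∀ W ⊆ D.erase o, F (insert o W) = F W) :
    ∑ W ∈ D.powerset, (-1 : ℤ) ^ W.card • F W = 0 := by
  rw [alt_split ho, sub_eq_zero]
  exact sum_congr rfl fun W hW => by rw [h W (mem_powerset.1 hW)]

theorem key (D : Finset ι) (ε : ι → ℤ) (f : Finset ι → M) :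
    ∑ W ∈ D.powerset, (-1 : ℤ) ^ W.card • (∏ o ∈ D \ W, ε o) • f W =
      ∑ T ∈ D.powerset, (∏ o ∈ T, (ε o - 1)) •
        ∑ W ∈ (D \ T).powerset, (-1 : ℤ) ^ W.card • f W := by
  have e : ∀ W : Finset ι, ∏ o ∈ D \ W, ε o = ∑ T ∈ (D \ W).powerset, ∏ o ∈ T, (ε o - 1) :=
    fun W => by
      rw [← prod_one_add]
      exact prod_congr rfl fun o _ => by ring
  simp only [e, sum_smul, smul_sum]
  rw [sum_comm' (s' := fun T => (D \ T).powerset) (t' := D.powerset)]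
  · exact sum_congr rfl fun T _ => sum_congr rfl fun W _ => smul_comm _ _ _
  · intro W T
    simp only [mem_powerset, subset_sdiff]
    exact ⟨fun h => ⟨⟨h.1, h.2.2.symm⟩, h.2.1⟩, fun h => ⟨h.1.1, h.2, h.1.2.symm⟩⟩

theorem key_mem (D : Finset ι) (ε : ι → ℤ) (f : Finset ι → M) (i : ℕ) (hε : ∀ o, 2 ∣ ε o - 1)
    (h : ∀ T ⊆ D, T ≠ ∅ → ∑ W ∈ (D \ T).powerset, (-1 : ℤ) ^ W.card • f W ∈ Mu M (i - T.card)) :
    ∑ W ∈ D.powerset, (-1 : ℤ) ^ W.card • (∏ o ∈ D \ W, ε o) • f W -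
      ∑ W ∈ D.powerset, (-1 : ℤ) ^ W.card • f W ∈ Mu M i := by
  rw [key, ← add_sum_erase _ _ (empty_mem_powerset D), prod_empty, one_smul, sdiff_empty,
    add_sub_cancel_left]
  refine sum_mem fun T hT => ?_
  obtain ⟨h1, h2⟩ := mem_erase.1 hT
  have h3 : (2 : ℤ) ^ T.card ∣ ∏ o ∈ T, (ε o - 1) := by
    rw [← prod_const]
    exact prod_dvd_prod_of_dvd _ _ fun o _ => hε o
  exact mu_le (by omega) (mu_smul h3 (h T (mem_powerset.1 h2) h1))

theorem ivt_sum (hz : Ax0) {κ : Type} (A : AddSubgroup M) (s : Finset κ) (c : κ → ℤ)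
    (f : κ → Ga → M) (h : ∀ k ∈ s, Ivt A (f k)) : Ivt A fun g => ∑ k ∈ s, c k • f k g := by
  classical
  induction s using Finset.induction_on with
  | empty => exact ⟨⊤, hz.opt, fun g u _ => by simp⟩
  | insert k s hk ih =>
    obtain ⟨U, hU, h1⟩ := h k (mem_insert_self _ _)
    obtain ⟨V, hV, h2⟩ := ih fun k' hk' => h k' (mem_insert_of_mem hk')
    refine ⟨U ⊓ V, hz.opi _ _ hU hV, fun g u hu => ?_⟩
    have := A.add_mem (A.zsmul_mem (h1 g u hu.1) (c k)) (h2 g u hu.2)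
    simp only [sum_insert hk]
    rw [smul_sub] at this
    rwa [add_sub_add_comm]

theorem ivt_clo (hz : Ax0) (A : AddSubgroup M) (c : ℤ) {f f' : Ga → M} (h : Ivt A f)
    (h' : Ivt A f') : Ivt A fun g => c • (f g - f' g) := by
  obtain ⟨U, hU, h1⟩ := h
  obtain ⟨V, hV, h2⟩ := h'
  refine ⟨U ⊓ V, hz.opi _ _ hU hV, fun g u hu => ?_⟩
  have := A.zsmul_mem (A.sub_mem (h1 g u hu.1) (h2 g u hu.2)) c
  rwa [sub_sub_sub_comm, smul_sub] at this

/-- the sign of an element of the field with two elements -/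
def sn (x : F2) : ℤ := (-1) ^ x.val

theorem sn_add (x y : F2) : sn (x + y) = sn x * sn y := by revert x y; decide

theorem sn_two (x : F2) : 2 ∣ sn x - 1 := by revert x; decide

theorem sn_sum {κ : Type} (s : Finset κ) (f : κ → F2) : sn (∑ k ∈ s, f k) = ∏ k ∈ s, sn (f k) := by
  classical
  induction s using Finset.induction_on with
  | empty => rfl
  | insert k s hk ih => rw [sum_insert hk, prod_insert hk, sn_add, ih]

theorem acn_apply (d n : ℕ) (T : Module.End ℤ M) (h : Ga) (y : M) :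
    acn d n T h y = sn (chi d h) • (T ^ (kap n h).val) y := by
  have e : ∀ k : ℕ, ((-1 : Module.End ℤ M) ^ k * T ^ (kap n h).val) y =
      (-1 : ℤ) ^ k • (T ^ (kap n h).val) y := fun k => by
    induction k with
    | zero => simp
    | succ k ih => simp only [pow_succ, mul_neg, mul_one, neg_mul, LinearMap.neg_apply, ih, neg_smul]
  exact e _

theorem f2_ne {x : F2} (h : x ≠ 1) : x = 0 := by revert x; decide

end Alt

section Cube

variable {ι : Type} [Fintype ι] [DecidableEq ι] {ℓ : ℕ}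

theorem sum_pw (D W : Finset ι) (hW : W ⊆ D) (x0 x1 : ι → ℕ) (c : ℕ → F2) :
    ∑ l, c (W.piecewise x1 x0 l) =
      ∑ o ∈ D \ W, (c (x0 o) + c (x1 o)) + ∑ l, c (D.piecewise x1 x0 l) := by
  rw [← Fintype.sum_ite_mem (D \ W), ← sum_add_distrib]
  refine sum_congr rfl fun l _ => ?_
  by_cases h1 : l ∈ W
  · simp [h1, hW h1]
  · by_cases h2 : l ∈ D
    · simp [h1, h2, add_assoc, CharTwo.add_self_eq_zero]
    · simp [h1, h2]

/-- reduction of vectors -/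
def rd (ℓ : ℕ) : (Fin ℓ → ℤ) →+ Vb ℓ := (Int.castAddHom F2).compLeft (Fin ℓ)

theorem rd_mu {j : ℕ} (hj : 1 ≤ j) {y : Fin ℓ → ℤ} (h : y ∈ Mu (Fin ℓ → ℤ) j) : rd ℓ y = 0 := by
  obtain ⟨z, rfl⟩ := mem_Mu.1 (mu_le hj h)
  rw [map_nsmul]
  funext i
  exact ZModModule.char_nsmul_eq_zero 2 _

variable {Φ : Frm} {μ : Md ℓ} {P i : ℕ} {i1 a b : ι} {D : Finset ι} {X : Set (ι → ℕ)}
  {v : Option ι → Vb ℓ} {ψ Γ : (ι → ℕ) → Ga → Fin ℓ → ℤ} {x0 x1 : ι → ℕ}

/-- the hypotheses -/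
structure Hy (Φ : Frm) (μ : Md ℓ) (P i : ℕ) (i1 a b : ι) (D : Finset ι) (X : Set (ι → ℕ))
    (v : Option ι → Vb ℓ) (ψ Γ : (ι → ℕ) → Ga → Fin ℓ → ℤ) (x0 x1 : ι → ℕ) : Prop where
  cc : SCC
  ax : Ax1 Φ
  cb : Cb Φ P i1 D a b X
  gm : Gm Φ μ P D a b X (lf (v (some a))) Γ
  two : 2 ≤ i
  le : i ≤ D.card
  vx : Vx X D x0 x1
  fc : ∀ W ⊆ D, W ≠ D → CC Φ μ (W.piecewise x1 x0) P i (ψ (W.piecewise x1 x0)) ∧
    red Φ (W.piecewise x1 x0) (ψ (W.piecewise x1 x0)) = v ∧ Cd Φ D i ψ Γ W x0 x1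

namespace Hy

variable (H : Hy Φ μ P i i1 a b D X v ψ Γ x0 x1)
include H

theorem lb {W : Finset ι} (hW : W ⊆ D) : Lb (W.piecewise x1 x0) P i1 := H.cb.lb _ (H.vx W hW)

theorem lb0 : Lb x0 P i1 := by simpa using H.lb (empty_subset D)

theorem m8 {W : Finset ι} (hW : W ⊆ D) :
    dd (W.piecewise x1 x0) P % 8 = dd (D.piecewise x1 x0) P % 8 :=
  H.cb.m8 _ (H.vx W hW) _ (H.vx D subset_rfl)

theorem topa : D.piecewise x1 x0 a = x1 a := piecewise_eq_of_mem _ _ _ H.cb.ad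

theorem odd {W : Finset ι} (hW : W ⊆ D) : Odd (dd (W.piecewise x1 x0) P) :=
  (H.cc.lab ι Φ _ P i1 H.ax (H.lb hW)).2.1

theorem ram {W : Finset ι} (hW : W ⊆ D) {q : ℕ} (hq : q.Prime) :
    chi (dd (W.piecewise x1 x0) P) (Φ.sg q) = 1 ↔ q = P ∨ (∃ l, q = W.piecewise x1 x0 l) ∨
      (q = 2 ∧ dd (W.piecewise x1 x0) P % 4 = 3) :=
  (H.cc.lab ι Φ _ P i1 H.ax (H.lb hW)).2.2.2.2.2.2.2.2.2.2.2.2 q hq

theorem acn_eq {W : Finset ι} (hW : W ⊆ D) (h : Ga) (y : Fin ℓ → ℤ) :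
    acn (dd (W.piecewise x1 x0) P) μ.n (toLin' μ.g) h y =
      (∏ o ∈ D \ W, sn (chi (x0 o) h + chi (x1 o) h)) •
        acn (dd (D.piecewise x1 x0) P) μ.n (toLin' μ.g) h y := by
  have e1 := (H.cc.lab ι Φ _ P i1 H.ax (H.lb hW)).2.2.2.2.2.2.2.2.2.2.2.1 h
  have e2 := (H.cc.lab ι Φ _ P i1 H.ax (H.lb subset_rfl)).2.2.2.2.2.2.2.2.2.2.2.1 h
  rw [acn_apply, acn_apply, smul_smul, ← sn_sum, ← sn_add, e1, e2,
    sum_pw D W hW x0 x1 fun q => chi q h, add_left_comm]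

theorem card_a : (D.erase a).card + 1 = D.card := card_erase_add_one H.cb.ad

theorem g3 {h : Ga} (hq : Qs Φ P D a b x0 x1 h) : cW D x0 x1 (fun x => Γ x h) = 0 :=
  H.gm.g3 D subset_rfl H.cb.ad x0 x1 h H.vx hq

theorem coc (h h' : Ga) : clo D x0 x1 ψ Γ (h * h') - clo D x0 x1 ψ Γ h -
    acn (dd (D.piecewise x1 x0) P) μ.n (toLin' μ.g) h (clo D x0 x1 ψ Γ h') ∈ Mu _ i := by
  have G1 := H.gm.g1 D subset_rfl x0 x1 h h' H.vx
  rw [H.card_a] at G1
  replace G1 := mu_le H.le G1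
  set A := acn (dd (D.piecewise x1 x0) P) μ.n (toLin' μ.g) h with hA
  set ε : ι → ℤ := fun o => sn (chi (x0 o) h + chi (x1 o) h) with hε
  have e1 : cW D x0 x1 (fun x => Γ x (h * h') - Γ x h -
      acn (dd x P) μ.n (toLin' μ.g) h (Γ x h')) = ∑ W ∈ D.powerset, (-1 : ℤ) ^ W.card •
        (Γ (W.piecewise x1 x0) (h * h') - Γ (W.piecewise x1 x0) h -
          (∏ o ∈ D \ W, ε o) • A (Γ (W.piecewise x1 x0) h')) :=
    sum_congr rfl fun W hW => by simp only [H.acn_eq (mem_powerset.1 hW)]; rfl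
  rw [e1] at G1
  have G2 : ∑ W ∈ D.powerset.erase D, (-1 : ℤ) ^ W.card •
      (ψ (W.piecewise x1 x0) (h * h') - ψ (W.piecewise x1 x0) h -
        (∏ o ∈ D \ W, ε o) • A (ψ (W.piecewise x1 x0) h')) ∈ Mu _ i := by
    refine sum_mem fun W hW => AddSubgroup.zsmul_mem _ ?_ _
    obtain ⟨h1, h2⟩ := mem_erase.1 hW
    have := (H.fc W (mem_powerset.1 h2) h1).1.coc h h'
    rwa [H.acn_eq (mem_powerset.1 h2)] at this
  have G3 := key_mem D ε (fun W => A (ψ (W.piecewise x1 x0) h' - Γ (W.piecewise x1 x0) h')) i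
    (fun o => sn_two _) fun T hT hne => by
      have h1 : D \ T ≠ D := fun e => hne (by
        rw [Finset.sdiff_eq_self_iff_disjoint] at e
        exact (disjoint_self.1 (e.mono_left hT)))
      have h2 := mu_map A ((H.fc _ sdiff_subset h1).2.2.1 h')
      have h3 := card_sdiff_add_card_eq_card hT
      have h4 := card_pos.2 (nonempty_iff_ne_empty.2 hne)
      have h5 := H.le
      simp only [cW, map_sum, map_zsmul] at h2
      exact mu_le (by omega) h2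
  have G := AddSubgroup.zsmul_mem _ (sub_mem (sub_mem G1 G2) G3) ((-1 : ℤ) ^ D.card)
  refine (congrArg (· ∈ Mu _ i) ?_).mp G
  simp only [clo, cW, map_zsmul]
  rw [← smul_sub, ← smul_sub]
  congr 1
  simp only [← add_sum_erase _ _ (mem_powerset_self D), sdiff_self, bot_eq_empty, prod_empty,
    one_smul, smul_sub, map_sub, map_add, map_sum, map_zsmul, sum_sub_distrib]
  abel

theorem ivt : Ivt (Mu _ i) (clo D x0 x1 ψ Γ) := by
  refine ivt_clo H.ax.z _ _ (ivt_sum H.ax.z _ _ _ _ fun W hW => ?_)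
    (ivt_sum H.ax.z _ _ _ _ fun W hW => ?_)
  · obtain ⟨U, hU, h⟩ := H.gm.g5 _ (H.vx W (mem_powerset.1 hW))
    exact ⟨U, hU, fun g u hu => bot_le (a := Mu _ i) (h g u hu)⟩
  · obtain ⟨h1, h2⟩ := mem_erase.1 hW
    exact (H.fc W (mem_powerset.1 h2) h1).1.inv

theorem val {h : Ga} (hq : Qs Φ P D a b x0 x1 h)
    (h1 : ∀ W ⊆ D, W ≠ D → ψ (W.piecewise x1 x0) h ∈ Mu _ i) : clo D x0 x1 ψ Γ h ∈ Mu _ i := by
  rw [clo, H.g3 hq]
  refine AddSubgroup.zsmul_mem _ (sub_mem (zero_mem _) (sum_mem fun W hW => ?_)) _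
  obtain ⟨h2, h3⟩ := mem_erase.1 hW
  exact AddSubgroup.zsmul_mem _ (h1 W (mem_powerset.1 h3) h2) _

theorem eo {p : Ga × Ga} (h1 : Qs Φ P D a b x0 x1 p.1) (h2 : Qs Φ P D a b x0 x1 p.2)
    (hc : ∀ W ⊆ D, chi (dd (W.piecewise x1 x0) P) p.1 = chi (dd (D.piecewise x1 x0) P) p.1)
    (h : ∀ W ⊆ D, W ≠ D →
      Eo (dd (W.piecewise x1 x0) P) μ.n (toLin' μ.g) (ψ (W.piecewise x1 x0)) p ∈ Mu _ i) :
    Eo (dd (D.piecewise x1 x0) P) μ.n (toLin' μ.g) (clo D x0 x1 ψ Γ) p ∈ Mu _ i := by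
  have G : ∑ W ∈ D.powerset.erase D, (-1 : ℤ) ^ W.card •
      Eo (dd (D.piecewise x1 x0) P) μ.n (toLin' μ.g) (ψ (W.piecewise x1 x0)) p ∈ Mu _ i := by
    refine sum_mem fun W hW => AddSubgroup.zsmul_mem _ ?_ _
    obtain ⟨h3, h4⟩ := mem_erase.1 hW
    have := h W (mem_powerset.1 h4) h3
    rwa [Eo, acn, hc W (mem_powerset.1 h4)] at this
  refine (congrArg (· ∈ Mu _ i) ?_).mp
    (AddSubgroup.zsmul_mem _ (neg_mem G) ((-1 : ℤ) ^ D.card))
  simp only [Eo, clo, H.g3 h1, H.g3 h2, map_zsmul, zero_sub, map_neg, map_sum, smul_sub,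
    sum_sub_distrib, smul_comm _ (2 : ℕ), ← smul_sum, smul_neg, neg_sub]
  abel

omit [Fintype ι] [DecidableEq ι] H in
theorem qs_sg {q : ℕ} (hq : q.Prime) (h0 : q ≠ x0 a) (h1 : q ≠ x1 a) :
    Qs Φ P D a b x0 x1 (Φ.sg q) :=
  .inr (.inr (.inr (.inr (.inr (.inr (.inr ⟨q, hq, h0, h1, rfl⟩))))))

theorem unr (q : ℕ) (hq : q.Prime)
    (h : chi (dd (D.piecewise x1 x0) P) (Φ.sg q) = 0 ∨ q = P) :
    clo D x0 x1 ψ Γ (Φ.sg q) ∈ Mu _ i := by
  by_cases hP : q = P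
  · refine H.val (qs_sg hq ?_ ?_) fun W hW hne => (H.fc W hW hne).1.unr q hq (.inr hP)
    · rw [hP]; exact (H.lb0.ne a).symm
    · rw [hP, ← H.topa]; exact ((H.lb subset_rfl).ne a).symm
  have h0 := h.resolve_right hP
  have h1 : ¬chi (dd (D.piecewise x1 x0) P) (Φ.sg q) = 1 := by rw [h0]; exact zero_ne_one
  rw [H.ram subset_rfl hq, not_or, not_or, not_exists] at h1
  obtain ⟨-, h2, h3⟩ := h1
  have un : ∀ W ⊆ D, W ≠ D → (∀ o ∈ D, o ∉ W → q ≠ x0 o) →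
      ψ (W.piecewise x1 x0) (Φ.sg q) ∈ Mu _ i := fun W hW hne ho => by
    refine (H.fc W hW hne).1.unr q hq (.inl (f2_ne ?_))
    rw [Ne, H.ram hW hq]
    rintro (h4 | ⟨l, h4⟩ | h4)
    · exact hP h4
    · by_cases h5 : l ∈ W
      · exact h2 l (by rw [h4, piecewise_eq_of_mem _ _ _ h5, piecewise_eq_of_mem _ _ _ (hW h5)])
      · rw [piecewise_eq_of_notMem _ _ _ h5] at h4
        by_cases h6 : l ∈ D
        · exact ho l h6 h5 h4
        · exact h2 l (by rw [h4, piecewise_eq_of_notMem _ _ _ h6])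
    · have := H.m8 hW
      exact h3 ⟨h4.1, by omega⟩
  have ha1 : q ≠ x1 a := by rw [← H.topa]; exact h2 a
  by_cases ho : ∃ o ∈ D, q = x0 o
  swap
  · exact H.val (qs_sg hq (fun e => ho ⟨a, H.cb.ad, e⟩) ha1) fun W hW hne =>
      un W hW hne fun o h4 _ e => ho ⟨o, h4, e⟩
  obtain ⟨o, hoD, rfl⟩ := ho
  have hc := card_erase_add_one hoD
  have h7 := H.two
  have h8 := H.le
  have hne : (D.erase o).Nonempty := card_pos.1 (by omega)
  have c0 : cW D x0 x1 (fun x => Γ x (Φ.sg (x0 o))) = 0 := by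
    by_cases hoa : o = a
    · subst hoa
      obtain ⟨o', ho'⟩ := hne
      obtain ⟨h9, h10⟩ := mem_erase.1 ho'
      have val : ∀ W ⊆ D, Γ (W.piecewise x1 x0) (Φ.sg (x0 o)) =
          if o ∈ W then 0 else lf (v (some o)) := fun W hW => by
        have g4 := H.gm.g4 _ (H.vx W hW)
        split_ifs with h5
        · have := g4.2 _ (H.vx ∅ (empty_subset D))
          rw [piecewise_eq_of_mem _ _ _ h5, piecewise_empty] at this
          exact this ha1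
        · have := g4.1
          rwa [piecewise_eq_of_notMem _ _ _ h5] at this
      refine alt_zero h10 (fun W => Γ (W.piecewise x1 x0) (Φ.sg (x0 o))) fun W hW => ?_
      have hW' : W ⊆ D := hW.trans (erase_subset _ _)
      rw [val _ (insert_subset h10 hW'), val _ hW']
      simp only [mem_insert, h9.symm, false_or]
    · exact H.g3 (qs_sg hq (fun e => hoa (H.lb0.inj e)) ha1)
  have c1 := (H.fc (D.erase o) (erase_subset _ _) (fun e => by rw [e] at hc; omega)).2.2.2 hne o hoD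
    (notMem_erase _ _)
  rw [clo, c0]
  refine AddSubgroup.zsmul_mem _ (sub_mem (zero_mem _) ?_) _
  have hs : (D.erase o).powerset ⊆ D.powerset.erase D := fun W hW => by
    have h4 := mem_powerset.1 hW
    refine mem_erase.2 ⟨fun e => ?_, mem_powerset.2 (h4.trans (erase_subset _ _))⟩
    rw [e] at h4
    exact notMem_erase o D (h4 hoD)
  rw [← sum_sdiff hs]
  refine add_mem (sum_mem fun W hW => AddSubgroup.zsmul_mem _ ?_ _) (mu_le (by omega) c1)
  obtain ⟨h4, h5⟩ := mem_sdiff.1 hW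
  obtain ⟨h6, h9⟩ := mem_erase.1 h4
  refine un W (mem_powerset.1 h9) h6 fun o' _ h10 e => h5 (mem_powerset.2 ?_)
  rw [H.lb0.inj e]
  exact subset_erase.2 ⟨mem_powerset.1 h9, h10⟩

theorem qs2 : Qs Φ P D a b x0 x1 (Φ.sg 2) :=
  qs_sg Nat.prime_two (H.lb0.odd a).2.1.symm (by
    rw [← H.topa]; exact ((H.lb subset_rfl).odd a).2.1.symm)

theorem c2 {W : Finset ι} (hW : W ⊆ D) :
    chi (dd (W.piecewise x1 x0) P) (Φ.fr 2) = chi (dd (D.piecewise x1 x0) P) (Φ.fr 2) ∧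
    chi (dd (W.piecewise x1 x0) P) Φ.f2 = chi (dd (D.piecewise x1 x0) P) Φ.f2 ∧
    chi (dd (W.piecewise x1 x0) P) (Φ.f2 * Φ.sg 2) =
      chi (dd (D.piecewise x1 x0) P) (Φ.f2 * Φ.sg 2) := by
  obtain ⟨a1, a2, a3⟩ := H.ax.v.codd _ (H.odd hW)
  obtain ⟨b1, b2, b3⟩ := H.ax.v.codd _ (H.odd subset_rfl)
  have m := H.m8 hW
  have m4 : dd (W.piecewise x1 x0) P % 4 = dd (D.piecewise x1 x0) P % 4 := by omega
  rw [H.ax.z.cmul, H.ax.z.cmul, a1, a2, a3, b1, b2, b3, m, eps, eps, m4]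
  exact ⟨rfl, rfl, rfl⟩

theorem four : Eo (dd (D.piecewise x1 x0) P) μ.n (toLin' μ.g) (clo D x0 x1 ψ Γ)
    (p4 Φ (dd (D.piecewise x1 x0) P)) ∈ Mu _ i := by
  refine H.eo ?_ ?_ (fun W hW => ?_) fun W hW hne => ?_
  · unfold p4 Qs
    split_ifs <;> simp
  · unfold p4 Qs
    split_ifs <;> simp
  · obtain ⟨h1, h2, h3⟩ := H.c2 hW
    unfold p4
    split_ifs
    exacts [h1, h3, h2]
  · have := (H.fc W hW hne).1.four
    rwa [p4, H.m8 hW, ← p4] at this

theorem red_eq : red Φ (D.piecewise x1 x0) (clo D x0 x1 ψ Γ) = v := by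
  funext o
  change rd ℓ (clo D x0 x1 ψ Γ (Φ.sg (po (D.piecewise x1 x0) o))) = v o
  set q := po (D.piecewise x1 x0) o with hq
  have h7 := H.two
  have h8 := H.le
  have h9 := H.card_a
  have g2 := rd_mu (by omega) (H.gm.g2 D subset_rfl x0 x1 (Φ.sg q) H.vx)
  let F : Finset ι → Vb ℓ := fun W => if po (W.piecewise x1 x0) o = q then v o else 0
  have e1 : ∀ W ∈ D.powerset.erase D, (-1 : ℤ) ^ W.card • rd ℓ (ψ (W.piecewise x1 x0) (Φ.sg q)) =
      (-1 : ℤ) ^ W.card • F W := fun W hW => by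
    obtain ⟨h1, h2⟩ := mem_erase.1 hW
    have h3 := mem_powerset.1 h2
    obtain ⟨c, r, -⟩ := H.fc W h3 h1
    congr 1
    simp only [F]
    split_ifs with h4
    · rw [← h4, ← r]
      rfl
    · cases o with
      | none => exact absurd rfl h4
      | some l =>
        have gd := (H.lb subset_rfl).odd l
        refine rd_mu (by omega) (c.unr q gd.1 (.inl (f2_ne ?_)))
        rw [Ne, H.ram h3 (q := q) gd.1]
        rintro (h5 | ⟨l', h5⟩ | h5)
        · exact (H.lb subset_rfl).ne l h5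
        · by_cases h6 : l = l'
          · subst h6
            exact h4 h5.symm
          · exact H.cb.nx _ (H.vx D subset_rfl) _ (H.vx W h3) l l' h6 h5
        · exact gd.2.1 h5.1
  obtain ⟨o', ho', hne⟩ : ∃ o' ∈ D, some o' ≠ o := by
    obtain ⟨s, hs, t, ht, hst⟩ := one_lt_card.1 (show 1 < D.card by omega)
    by_cases h : some s = o
    · exact ⟨t, ht, fun e => hst (Option.some_injective _ (h.trans e.symm))⟩
    · exact ⟨s, hs, h⟩
  have e2 := alt_zero ho' F fun W _ => by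
    have : po ((insert o' W).piecewise x1 x0) o = po (W.piecewise x1 x0) o := by
      cases o with
      | none => rfl
      | some l =>
        have h1 : l ≠ o' := fun e => hne (by rw [e])
        change (insert o' W).piecewise x1 x0 l = W.piecewise x1 x0 l
        simp only [Finset.piecewise, mem_insert, h1, false_or]
    simp only [F, this]
  rw [← add_sum_erase _ _ (mem_powerset_self D)] at e2
  have e3 : F D = v o := if_pos rfl
  rw [clo, map_zsmul, map_sub, g2, map_sum]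
  simp only [map_zsmul]
  rw [sum_congr rfl e1, zero_sub, ← eq_neg_of_add_eq_zero_left e2, e3, smul_smul, ← mul_pow]
  simp

end Hy

end Cube

end CLO

open CLO in
theorem rowCLO : OfCLO := by
  intro hC ι _ _ ℓ Φ μ P J i i1 D a b X v ψ Γ x0 x1 hA _ hb hg h2 hi _ hv _ hf
  have H : Hy Φ μ P i i1 a b D X v ψ Γ x0 x1 := ⟨hC, hA, hb, hg, h2, hi, hv, hf⟩
  refine ⟨⟨H.coc, H.ivt, H.unr, H.val (.inl rfl) fun W hW hne => (hf W hW hne).1.nrm, fun h4 => ?_,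
    H.four⟩, H.red_eq⟩
  refine H.eo (.inr (.inl rfl)) H.qs2 (fun W hW => (H.c2 hW).1) fun W hW hne =>
    (hf W hW hne).1.two ?_
  have := H.m8 hW
  omega

end Pool.Agent.MP_1246c0_nt.H25
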