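import Pool.Agent.MP_1246c0_nt.H25.SpecC

/-! Lattices of large rank give large solutions of the system of first order. -/

set_option autoImplicit false

namespace Pool.Agent.MP_1246c0_nt.H25

open Finset Matrix Pool.Agent.MP_db5b97_nt.H85
open Pool.Agent.MP_1246c0_nt.H12

namespace LWA

section Core

variable {ι G : Type} [Fintype ι] [DecidableEq ι] [AddCommGroup G] [Module F2 G]

/-- the system on a module with trivial action -/
structure Sys (lv : ι → ℕ) (e : ι → F2) (S : Matrix ι ι F2) (a : ℕ) (s u : Module.End F2 G)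
    (x : ι → G) (xt m : G) : Prop where
  row : ∀ l, rel (1 : F2) s u a (lv l) (x l) (ap S x l + e l • xt + if lv l = 0 then m else 0)
  tau : ∑ l, e l = 1 → rel (1 : F2) s u a 0 xt m
  tz : ∑ l, e l = 0 → xt = 0
  inf : ∑ l, e l • x l + xt = 0
  f1 : ∑ l, z0 lv l = 1 → ∑ l, z0 lv l • x l = 0
  f3 : ∑ l, e l = 1 → ∑ l, z0 lv l = 0 → ∑ l, z0 lv l • x l = xt
  q0 : ∑ l, ap S x l = m + xt
  gen : ∀ W : Submodule F2 G, (∀ w ∈ W, s w ∈ W) → (∀ w ∈ W, u w ∈ W) → (∀ l, x l ∈ W) →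
    xt ∈ W → W = ⊤

theorem f2_cases (x : F2) : x = 0 ∨ x = 1 := by revert x; decide

omit [DecidableEq ι] [Module F2 G] in
theorem sum_sub (p : ι → Prop) [DecidablePred p] (f : ι → G) (h : ∀ l, ¬p l → f l = 0) :
    ∑ l : {l // p l}, f l.1 = ∑ l, f l := by
  rw [← Fintype.sum_subtype_add_sum_subtype p f]
  have : ∑ l : {l // ¬p l}, f l.1 = 0 := Finset.sum_eq_zero fun l _ => h l.1 l.2
  rw [this, add_zero]

theorem rel_lt {s u : Module.End F2 G} {a i : ℕ} {x r : G} (h : rel (1 : F2) s u a i x r)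
    (hi : i + 1 < a) : x = 0 := by
  unfold rel at h
  rw [if_pos (by omega)] at h
  have h1 : 2 ^ i < 2 ^ (a - 1) := Nat.pow_lt_pow_right (by norm_num) (by omega)
  rw [h, sub_self, zero_pow (by omega), zero_smul]

theorem rel_pred {s u : Module.End F2 G} {a i : ℕ} {x r : G} (h : rel (1 : F2) s u a i x r)
    (hi : i + 1 = a) : x = u r := by
  unfold rel at h
  rw [if_pos (by omega)] at h
  have h1 : a - 1 = i := by omega
  rw [h, h1, Nat.sub_self, pow_zero, one_smul]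

theorem rel_eq {s u : Module.End F2 G} {a i : ℕ} {x r : G} (h : rel (1 : F2) s u a i x r)
    (hi : i = a) : r = s x := by
  unfold rel at h
  rwa [if_neg (by omega), if_pos hi] at h

theorem rel_gt {s u : Module.End F2 G} {a i : ℕ} {x r : G} (h : rel (1 : F2) s u a i x r)
    (hi : a < i) : r = 0 := by
  unfold rel at h
  rwa [if_neg (by omega), if_neg (by omega)] at h

theorem rel_low {s : Module.End F2 G} {a i : ℕ} {x r : G} (h : rel (1 : F2) s 0 a i x r)
    (hi : i < a) : x = 0 := by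
  unfold rel at h
  rw [if_pos hi] at h
  rw [h, LinearMap.zero_apply, smul_zero]

theorem rel_ge {u : Module.End F2 G} {a i : ℕ} {x r : G} (h : rel (1 : F2) 0 u a i x r)
    (hi : a ≤ i) : r = 0 := by
  rcases hi.eq_or_lt with h1 | h1
  · rw [rel_eq h h1.symm, LinearMap.zero_apply]
  · exact rel_gt h h1

variable [Finite G] {lv : ι → ℕ} {e : ι → F2} {S : Matrix ι ι F2} {a γ : ℕ} {i1 : ι}
  {x : ι → G} {xt m : G}

theorem coreA (hE : SELM) (h1 : lv i1 = 0) (h2 : e i1 = 0) {s : Module.End F2 G}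
    (h : Sys lv e S a s 0 x xt m) (hc : 2 ^ γ ≤ Nat.card G) : BadLo lv e i1 S γ a false := by
  have gen : ∀ W : Submodule F2 G, (∀ w ∈ W, s w ∈ W) → (∀ l, x l ∈ W) → xt ∈ W → W = ⊤ :=
    fun W hW => h.gen W hW fun w _ => by rw [LinearMap.zero_apply]; exact W.zero_mem
  rcases Nat.eq_zero_or_pos a with rfl | ha
  · refine hE.sol ι G lv e i1 S false s x xt m γ h1 h2
      ⟨fun l hl => ?_, fun l hl => ?_, h.inf, fun he => ?_, h.tz, h.f1, h.f3, h.q0,
        fun W hW hx => gen W hW (fun l => hx (some l)) (hx none)⟩ hc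
    · have := rel_eq (h.row l) hl
      rw [if_pos hl] at this
      simpa [grf] using this
    · have := rel_gt (h.row l) (Nat.pos_of_ne_zero hl)
      rwa [if_neg hl, add_zero] at this
    · simpa [grf] using rel_eq (h.tau he) rfl
  · have hx : ∀ l, ¬a ≤ lv l → x l = 0 := fun l hl => rel_low (h.row l) (by omega)
    have ht : xt = 0 := (f2_cases (∑ l, e l)).elim h.tz fun he => rel_low (h.tau he) ha
    unfold BadLo
    rw [if_neg ha.ne']
    refine ⟨G, inferInstance, inferInstance, inferInstance, s, fun l => x l.1, hc, ⟨fun l => ?_, ?_⟩,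
      fun W hW hg => gen W hW (fun l => ?_) (ht ▸ W.zero_mem)⟩
    · have e1 : ap (S.submatrix Subtype.val Subtype.val)
          (xv (univ.filter fun l : {l // a ≤ lv l} => lv l.1 = a) false s fun l => x l.1) l =
          ap S x l.1 := by
        simp only [ap, xv, submatrix_apply, Bool.false_eq_true, and_false, if_false]
        exact sum_sub (fun l => a ≤ lv l) (fun l' => S l.1 l' • x l') fun l' hl' => by
          rw [hx l' hl', smul_zero]
      have e2 := h.row l.1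
      have hl := l.2
      rw [if_neg (by omega), ht, smul_zero, add_zero, add_zero] at e2
      rw [e1]
      simp only [rvo, Finset.mem_filter, Finset.mem_univ, true_and, Bool.false_eq_true, if_false,
        Finset.sum_empty, add_zero]
      split_ifs with hp
      · exact rel_eq e2 hp
      · exact rel_gt e2 (by omega)
    · simp only [xv, Bool.false_eq_true, and_false, if_false]
      rw [sum_sub (fun l => a ≤ lv l) (fun l => e l • x l) fun l hl => by rw [hx l hl, smul_zero]]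
      simpa [ht] using h.inf
    · by_cases hl : a ≤ lv l
      · exact hg ⟨l, hl⟩
      · rw [hx l hl]; exact W.zero_mem

theorem coreB (hE : SELM) (h1 : lv i1 = 0) (h2 : e i1 = 0) {u : Module.End F2 G} (ha : a ≠ 0)
    (h : Sys lv e S a 0 u x xt m) (hc : 2 ^ γ ≤ Nat.card G) :
    BadLo lv e i1 S γ (a - 1) true := by
  have gen : ∀ W : Submodule F2 G, (∀ w ∈ W, u w ∈ W) → (∀ l, x l ∈ W) → xt ∈ W → W = ⊤ :=
    fun W hW => h.gen W (fun w _ => by rw [LinearMap.zero_apply]; exact W.zero_mem) hW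
  obtain ⟨b, rfl⟩ := Nat.exists_eq_succ_of_ne_zero ha
  rw [Nat.succ_sub_one]
  rcases Nat.eq_zero_or_pos b with rfl | hb
  · refine hE.sol ι G lv e i1 S true u x xt m γ h1 h2
      ⟨fun l hl => ?_, fun l hl => ?_, h.inf, fun he => ?_, h.tz, h.f1, h.f3, h.q0,
        fun W hW hx => gen W hW (fun l => hx (some l)) (hx none)⟩ hc
    · have := rel_pred (h.row l) (by omega)
      rw [if_pos hl] at this
      simpa [grf] using this
    · have := rel_ge (h.row l) (by omega)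
      rwa [if_neg hl, add_zero] at this
    · simpa [grf] using rel_pred (h.tau he) rfl
  · have hx : ∀ l, ¬b ≤ lv l → x l = 0 := fun l hl => rel_lt (h.row l) (by omega)
    have ht : xt = 0 := (f2_cases (∑ l, e l)).elim h.tz fun he => rel_lt (h.tau he) (by omega)
    have hr : ∀ l, b ≤ lv l → rel (1 : F2) 0 u b.succ (lv l) (x l) (ap S x l) := fun l hl => by
      have e2 := h.row l
      rwa [if_neg (by omega), ht, smul_zero, add_zero, add_zero] at e2
    have hxv : xv (univ.filter fun l : {l // b ≤ lv l} => lv l.1 = b) true u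
        (fun l => if lv l.1 = b then ap S x l.1 else x l.1) = fun l => x l.1 := by
      funext l
      simp only [xv, Finset.mem_filter, Finset.mem_univ, true_and, and_true]
      split_ifs with hp
      · exact (rel_pred (hr l.1 l.2) (by omega)).symm
      · rfl
    unfold BadLo
    rw [if_neg hb.ne']
    refine ⟨G, inferInstance, inferInstance, inferInstance, u,
      fun l => if lv l.1 = b then ap S x l.1 else x l.1, hc, ⟨fun l => ?_, ?_⟩,
      fun W hW hg => gen W hW (fun l => ?_) (ht ▸ W.zero_mem)⟩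
    · have e1 : ap (S.submatrix Subtype.val Subtype.val)
          (fun l : {l // b ≤ lv l} => x l.1) l = ap S x l.1 := by
        simp only [ap, submatrix_apply]
        exact sum_sub (fun l => b ≤ lv l) (fun l' => S l.1 l' • x l') fun l' hl' => by
          rw [hx l' hl', smul_zero]
      have hl := l.2
      rw [hxv, e1]
      simp only [rvo, Finset.mem_filter, Finset.mem_univ, true_and, if_true,
        Finset.sum_empty, add_zero]
      split_ifs with hp
      · rfl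
      · exact rel_ge (hr l.1 hl) (by omega)
    · rw [hxv, sum_sub (fun l => b ≤ lv l) (fun l => e l • x l) fun l hl => by
        rw [hx l hl, smul_zero]]
      simpa [ht] using h.inf
    · by_cases hl : b ≤ lv l
      · have h3 := hg ⟨l, hl⟩
        by_cases hp : lv l = b
        · simp only [hp, if_true] at h3
          rw [rel_pred (hr l hl) (by omega)]
          exact hW _ h3
        · simpa only [hp, if_false] using h3
      · rw [hx l hl]; exact W.zero_mem

end Core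

section Dim

variable {V : Type} [AddCommGroup V] [Module F2 V] [FiniteDimensional F2 V]

open Module

theorem dim_comp (f : Module.End F2 V) (W : Submodule F2 V) :
    finrank F2 W + finrank F2 (LinearMap.range f) ≤ finrank F2 (W.map f) + finrank F2 V := by
  have h1 := LinearMap.finrank_range_add_finrank_ker (f.domRestrict W)
  have h2 := LinearMap.finrank_range_add_finrank_ker f
  rw [LinearMap.range_domRestrict] at h1
  have h3 : finrank F2 (LinearMap.ker (f.domRestrict W)) ≤ finrank F2 (LinearMap.ker f) := by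
    rw [← Submodule.finrank_map_subtype_eq]
    refine Submodule.finrank_mono ?_
    rintro _ ⟨y, hy, rfl⟩
    exact hy
  omega

theorem dim_pow (f : Module.End F2 V) (k : ℕ) :
    finrank F2 V + k * finrank F2 (LinearMap.range f) ≤
      finrank F2 (LinearMap.range (f ^ k)) + k * finrank F2 V := by
  induction k with
  | zero => rw [pow_zero, Module.End.one_eq_id, LinearMap.range_id, finrank_top, zero_mul, zero_mul]
  | succ k ih =>
    have h := dim_comp f (LinearMap.range (f ^ k))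
    rw [← LinearMap.range_comp, ← Module.End.mul_eq_comp, ← pow_succ'] at h
    rw [add_mul, add_mul]
    omega

theorem dim_two (u : Module.End F2 V) (R W1 W2 : Submodule F2 V)
    (h1 : W1 = R ⊔ LinearMap.range u) (h2 : ∀ w ∈ W2, u w ∈ R) :
    finrank F2 W1 + finrank F2 W2 ≤ finrank F2 V + finrank F2 R := by
  have e1 := dim_comp u W2
  have e2 := Submodule.finrank_sup_add_finrank_inf_eq R (LinearMap.range u)
  have e3 : finrank F2 (W2.map u) ≤ finrank F2 (R ⊓ LinearMap.range u : Submodule F2 V) := by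
    refine Submodule.finrank_mono ?_
    rintro _ ⟨y, hy, rfl⟩
    exact ⟨h2 y hy, y, rfl⟩
  rw [h1]
  omega

theorem card_quot (W : Submodule F2 V) {γ : ℕ} (h : γ + finrank F2 W ≤ finrank F2 V) :
    2 ^ γ ≤ Nat.card (V ⧸ W) := by
  have h1 := W.finrank_quotient_add_finrank
  rw [Module.natCard_eq_pow_finrank (K := F2), Nat.card_zmod]
  exact Nat.pow_le_pow_right (by norm_num) (by omega)

theorem dim_co (f : Module.End F2 V) {a γ : ℕ} (hn : f ^ 2 ^ a = 0)
    (hγ : γ * 2 ^ (a + 1) ≤ finrank F2 V) :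
    2 * γ + finrank F2 (LinearMap.range f) ≤ finrank F2 V := by
  have d1 := dim_pow f (2 ^ a)
  rw [hn, LinearMap.range_zero, finrank_bot, zero_add] at d1
  refine Nat.le_of_mul_le_mul_left ?_ (Nat.two_pow_pos a)
  rw [pow_succ] at hγ
  nlinarith

theorem pick0 (f u : Module.End F2 V) {a γ : ℕ} (hn : f ^ 2 ^ a = 0)
    (hγ : γ * 2 ^ (a + 1) ≤ finrank F2 V) (hu : LinearMap.range u = ⊥) :
    2 ^ γ ≤ Nat.card (V ⧸ (LinearMap.range f ⊔ LinearMap.range u)) := by
  have := dim_co f hn hγ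
  rw [hu, sup_bot_eq]
  exact card_quot _ (by omega)

theorem pick1 (f s u : Module.End F2 V) {a γ : ℕ} (hn : f ^ 2 ^ a = 0)
    (hγ : γ * 2 ^ (a + 1) ≤ finrank F2 V) (h1 : ∀ y, f (u y) = u (f y))
    (h2 : ∀ y, u (s y) ∈ LinearMap.range f) :
    2 ^ γ ≤ Nat.card (V ⧸ (LinearMap.range f ⊔ LinearMap.range u)) ∨
      2 ^ γ ≤ Nat.card (V ⧸ (LinearMap.range f ⊔ LinearMap.range s)) := by
  have d2 := dim_co f hn hγ
  have d3 := dim_two u (LinearMap.range f) _ (LinearMap.range f ⊔ LinearMap.range s) rfl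
    fun w hw => by
      obtain ⟨_, ⟨y, rfl⟩, _, ⟨z, rfl⟩, rfl⟩ := Submodule.mem_sup.1 hw
      rw [map_add]
      exact Submodule.add_mem _ ⟨u y, h1 y⟩ (h2 z)
  by_cases h : γ + finrank F2 (LinearMap.range f ⊔ LinearMap.range u : Submodule F2 V) ≤
    finrank F2 V
  · exact .inl (card_quot _ h)
  · exact .inr (card_quot _ (by omega))

end Dim

section Lat

theorem mu_le {M : Type} [AddCommGroup M] {i j : ℕ} (h : i ≤ j) : Mu M j ≤ Mu M i := by
  rintro _ ⟨y, rfl⟩
  refine ⟨2 ^ (j - i) • y, ?_⟩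
  change 2 ^ i • 2 ^ (j - i) • y = 2 ^ j • y
  rw [← mul_smul, ← pow_add, Nat.add_sub_cancel' h]

/-- reduction of vectors -/
def rd (ℓ : ℕ) : (Fin ℓ → ℤ) →+ Vb ℓ := (Int.castAddHom F2).compLeft (Fin ℓ)

variable {ℓ : ℕ}

theorem rd_surj : Function.Surjective (rd ℓ) := fun x => by
  choose y hy using fun i => ZMod.intCast_surjective (x i)
  exact ⟨y, funext hy⟩

theorem rd_two (y : Fin ℓ → ℤ) : rd ℓ (2 • y) = 0 := by
  rw [map_nsmul]
  funext i
  exact ZModModule.char_nsmul_eq_zero 2 _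

theorem rd_mu {j : ℕ} (hj : 1 ≤ j) {y : Fin ℓ → ℤ} (h : y ∈ Mu (Fin ℓ → ℤ) j) : rd ℓ y = 0 := by
  obtain ⟨z, rfl⟩ := mu_le hj h
  exact rd_two z

theorem rd_bar (g : Matrix (Fin ℓ) (Fin ℓ) ℤ) (y : Fin ℓ → ℤ) :
    rd ℓ (toLin' g y) = toLin' (bar g) (rd ℓ y) :=
  funext fun i => RingHom.map_mulVec (Int.castRingHom F2) g y i

theorem rd_pow (g : Matrix (Fin ℓ) (Fin ℓ) ℤ) (k : ℕ) (y : Fin ℓ → ℤ) :
    rd ℓ ((toLin' g ^ k) y) = (toLin' (bar g) ^ k) (rd ℓ y) := by
  induction k generalizing y with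
  | zero => rfl
  | succ k ih => rw [pow_succ, pow_succ, Module.End.mul_apply, Module.End.mul_apply, ih, rd_bar]

theorem rd_comm {A B : Matrix (Fin ℓ) (Fin ℓ) ℤ}
    (h : ∀ x, toLin' A (toLin' B x) - toLin' B (toLin' A x) ∈ Mu (Fin ℓ → ℤ) 2) (y : Vb ℓ) :
    toLin' (bar A) (toLin' (bar B) y) = toLin' (bar B) (toLin' (bar A) y) := by
  obtain ⟨x, rfl⟩ := rd_surj y
  have := rd_mu (by norm_num) (h x)
  rwa [map_sub, rd_bar, rd_bar, rd_bar, rd_bar, sub_eq_zero] at this

theorem pow_sub (T : Module.End F2 (Vb ℓ)) (k : ℕ) : (T - 1) ^ 2 ^ k = T ^ 2 ^ k - 1 := by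
  have h2 : ∀ f : Module.End F2 (Vb ℓ), f + f = 0 := fun f => by
    rw [← two_smul F2, show (2 : F2) = 0 from rfl, zero_smul]
  induction k with
  | zero => simp
  | succ k ih =>
    rw [pow_succ, pow_mul, pow_mul, ih, sq, sq, sub_mul, mul_sub, one_mul, mul_one]
    have := h2 (T ^ 2 ^ k - 1)
    rw [← sub_eq_zero]
    have e : T ^ 2 ^ k * T ^ 2 ^ k - T ^ 2 ^ k - (T ^ 2 ^ k - 1) - (T ^ 2 ^ k * T ^ 2 ^ k - 1) =
        -(T ^ 2 ^ k - 1 + (T ^ 2 ^ k - 1)) := by abel
    rw [e, this, neg_zero]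

variable {μ : Md ℓ}

theorem nil (h : Adm (toLin' μ.g) (toLin' μ.s) (toLin' μ.u) μ.a) :
    (toLin' (bar μ.g) - 1) ^ 2 ^ μ.a = 0 := by
  rw [pow_sub]
  refine LinearMap.ext fun y => ?_
  obtain ⟨x, rfl⟩ := rd_surj y
  have := rd_mu (by norm_num) (h.hs x)
  rw [map_sub, map_sub, rd_two, rd_pow, sub_zero] at this
  exact this

theorem us (h : Adm (toLin' μ.g) (toLin' μ.s) (toLin' μ.u) μ.a) (ha : μ.a ≠ 0) (y : Vb ℓ) :
    toLin' (bar μ.u) (toLin' (bar μ.s) y) ∈ LinearMap.range (toLin' (bar μ.g) - 1) := by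
  obtain ⟨x, rfl⟩ := rd_surj y
  obtain ⟨b, hb⟩ := Nat.exists_eq_succ_of_ne_zero ha
  set T := toLin' μ.g with hT
  obtain ⟨z, hz⟩ := mem_Mu.1 (h.hs x)
  obtain ⟨z', hz'⟩ := mem_Mu.1 (h.hu ha ((T ^ 2 ^ b) x + x))
  rw [hb, Nat.succ_sub_one] at hz'
  rw [hb] at hz
  have e1 : (T ^ 2 ^ b) ((T ^ 2 ^ b) x + x) - ((T ^ 2 ^ b) x + x) = (T ^ 2 ^ b.succ) x - x := by
    rw [map_add, ← Module.End.mul_apply, ← pow_add, ← two_mul, ← pow_succ']
    abel
  rw [e1] at hz'
  have e2 : (T ^ 2 ^ b.succ) x - x = 2 ^ 2 • z + 2 • toLin' μ.s x := by rw [hz]; abel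
  rw [e2, map_add, map_nsmul, map_nsmul] at hz'
  have e3 : toLin' μ.u (toLin' μ.s x) - ((T ^ 2 ^ b) x - x) - 2 • (z' - toLin' μ.u z + x) = 0 := by
    refine h.tf _ ?_
    have e4 : (2 ^ 2 : ℕ) • z' - (2 ^ 2 • toLin' μ.u z + 2 • toLin' μ.u (toLin' μ.s x) -
      2 • ((T ^ 2 ^ b) x + x)) = 0 := sub_eq_zero.2 hz'
    rw [← neg_eq_zero, ← e4]
    module
  have e5 := congrArg (rd ℓ) e3
  rw [map_sub, map_sub, map_sub, rd_two, rd_bar, rd_bar, hT, rd_pow, map_zero, sub_zero,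
    sub_eq_zero] at e5
  rw [e5]
  have e6 := pow_sub (toLin' (bar μ.g)) b
  obtain ⟨c, hc⟩ := Nat.exists_eq_succ_of_ne_zero (pow_ne_zero b (two_ne_zero (α := ℕ)))
  refine ⟨((toLin' (bar μ.g) - 1) ^ c) (rd ℓ x), ?_⟩
  rw [← Module.End.mul_apply, ← pow_succ', ← Nat.succ_eq_add_one, ← hc, e6]
  rfl

end Lat

section Sys

variable {ι : Type} [Fintype ι] [DecidableEq ι] {ℓ : ℕ}

theorem val_smul {G : Type} [AddCommGroup G] [Module F2 G] (c : F2) (y : G) : c.val • y = c • y := by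
  rcases f2_cases c with rfl | rfl
  · simp
  · rw [one_smul]
    exact one_nsmul y

theorem nu_zero (i : ℕ) : nu i ((1 : F2) - 1) = if i = 0 then 1 else 0 := by
  simp only [nu, sub_self, add_zero, one_pow, Finset.sum_const, Finset.card_range, nsmul_eq_mul,
    mul_one]
  split_ifs with h
  · simp [h]
  · rw [Nat.cast_pow, show ((2 : ℕ) : F2) = 0 from rfl, zero_pow h]

omit [DecidableEq ι] in
theorem z0_sum (lv : ι → ℕ) :
    ∑ l, z0 lv l = ((univ.filter fun l => lv l = 0).card : F2) := by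
  simp only [z0, Finset.sum_boole]

theorem sys (hL : SLAM) (hC : SCC) (hY : SSY2) (hF : SFS) (S : Sy) (μ : Md ℓ) (pr : ι → ℕ)
    (P J : ℕ) (i1 : ι) (hA : Ax S) (hb : Lb pr P i1) (ho : μ.Ok J)
    (hv : (Vg S.Φ μ pr P J).Nonempty) (W : Submodule F2 (Vb ℓ))
    (hg : LinearMap.range (toLin' (bar μ.g) - 1) ≤ W) (hs : W ≤ W.comap (toLin' (bar μ.s)))
    (hu : W ≤ W.comap (toLin' (bar μ.u))) :
    ∃ (x : ι → Vb ℓ ⧸ W) (xt m : Vb ℓ ⧸ W), Sys (fun i => lev (pr i)) (fun i => eps (pr i))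
      (Sm0 pr P) μ.a (W.mapQ W _ hs) (W.mapQ W _ hu) x xt m := by
  obtain ⟨v, ⟨ψ, hψ, rfl⟩, h3⟩ := hv
  have hJ := ho.two
  have hn := ho.le
  let π : (Fin ℓ → ℤ) →+ Vb ℓ ⧸ W := W.mkQ.toAddMonoidHom.comp (rd ℓ)
  have hπ : ∀ y, π y = W.mkQ (rd ℓ y) := fun _ => rfl
  have hT : ∀ y, W.mkQ (toLin' (bar μ.g) y) = W.mkQ y := fun y =>
    (Submodule.Quotient.eq W).2 (hg ⟨y, rfl⟩)
  have hQ : Qt (toLin' μ.g) (toLin' μ.s) (toLin' μ.u) π (1 : F2) (W.mapQ W _ hs)
      (W.mapQ W _ hu) :=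
    ⟨W.mkQ_surjective.comp rd_surj, fun x => by rw [hπ, rd_two, map_zero],
      fun x => by rw [hπ, rd_bar, hT, one_smul, hπ], fun x => by rw [hπ, rd_bar]; rfl,
      fun x => by rw [hπ, rd_bar]; rfl⟩
  obtain ⟨a1, a2⟩ := hY.aus ι F2 S.D i2 i2 1 0 pr P hL.zero.1 hb.odd
  have a1' : MX S.D 0 (1 : F2) pr P = Sm0 pr P := a1
  have a2' : ∀ i, cX S.D 0 (1 : F2) (pr i) = eps (pr i) := a2
  have c2 : Cc S.Φ (dd pr P) P μ.n (toLin' μ.g) (Mu _ 2) ψ :=
    hC.mono _ _ _ _ _ _ _ _ _ (mu_le hJ) hψ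
  have c1 : Cc S.Φ (dd pr P) P μ.n (toLin' μ.g) (Mu _ 1) ψ :=
    hC.mono _ _ _ _ _ _ _ _ _ (mu_le (by omega)) hψ
  have F := hF ι _ F2 _ S pr P μ.n 0 μ.a i1 _ _ _ ψ i2 i2 1 π _ _ (Sm0 pr P) hA hb ho.adm
    (by omega) (Nat.zero_le _) hL.zero.1 hQ 
    (fun i j => by rw [a1']; exact ⟨0, by rw [sub_self, mul_zero]⟩) c1
  have ad : Ad (toLin' μ.g) μ.n (Mu _ 2) := (hC.adm _ _ _ _ _ ho.adm).1 2 μ.n (by omega)
  have ro : ∀ p, Eo (dd pr P) μ.n (toLin' μ.g) ψ p ∈ Mu _ 2 → Ro (dd pr P) μ.n (toLin' μ.g) ψ p :=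
    fun p hp => ⟨0, by simpa using hp⟩
  obtain ⟨-, odd, -, -, -, -, -, -, -, es, par, -, chs⟩ := hC.lab ι S.Φ pr P i1 hA.one hb
  have od : dd pr P % 2 = 1 := Nat.odd_iff.1 odd
  have e1 : ∑ l, eps (pr l) = 1 → dd pr P % 4 = 3 := fun h => by
    by_contra h'
    rw [← es, eps, if_neg h'] at h
    exact zero_ne_one h
  have e0 : ∑ l, eps (pr l) = 0 → dd pr P % 4 = 1 := fun h => by
    by_contra h'
    rw [← es, eps, if_pos (by omega)] at h
    exact one_ne_zero h
  have four := F.four (ro _ c2.four) fun y => one_smul _ y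
  have inf := F.inf (ro _ (hC.inf _ _ _ _ _ _ _ _ hA.one ad c2))
  simp only [a2'] at inf
  simp only [val_smul] at four
  have q0 := F.q0 fun y => one_smul _ y
  simp only [val_smul] at q0
  refine ⟨fun l => π (ψ (S.Φ.sg (pr l))), π (ψ (S.Φ.sg 2)), π (ψ (S.Φ.fr 2)), fun l => ?_,
    fun h => F.tau (e1 h) (ro _ (c2.two (e1 h))), fun h => F.tz (e0 h), inf, fun h => ?_,
    fun h h' => ?_, ?_, fun W' h1 h2 hx ht => ?_⟩
  · have r := F.row l (ro _ (hC.odd _ _ _ _ _ _ _ _ _ hA.one ad c2 (hb.odd l)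
      ((chs _ (hb.odd l).1).2 (.inr (.inl ⟨l, rfl⟩)))))
    rw [val_smul, nu_zero, ite_smul, one_smul, zero_smul] at r
    exact r
  · refine four.2 ?_
    rw [z0_sum, ZMod.natCast_eq_one_iff_odd, ← Nat.not_even_iff_odd, ← par] at h
    omega
  · refine four.1 ?_
    rw [z0_sum, ZMod.natCast_eq_zero_iff_even, ← par] at h'
    have := e1 h
    omega
  · simp only [ap]
    rw [Finset.sum_comm]
    simp only [← Finset.sum_smul, hY.col ι pr P i1 _ hb, add_smul, Finset.sum_add_distrib]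
    rw [← q0, eq_neg_of_add_eq_zero_left inf, ZModModule.neg_eq_self, add_comm]
  · have := h3 (W'.comap W.mkQ).toAddSubgroup (fun y hy => ⟨?_, h1 _ hy, h2 _ hy⟩) fun o => ?_
    · rw [eq_top_iff]
      intro y _
      obtain ⟨z, rfl⟩ := W.mkQ_surjective y
      exact (AddSubgroup.ext_iff.1 this z).2 trivial
    · change W.mkQ (toLin' (bar μ.g) y) ∈ W'
      rw [hT]
      exact hy
    · cases o with
      | none => exact ht
      | some l => exact hx l

theorem mapQ_zero {V : Type} [AddCommGroup V] [Module F2 V] (W : Submodule F2 V)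
    (f : Module.End F2 V) (h : W ≤ W.comap f) (h' : LinearMap.range f ≤ W) : W.mapQ W f h = 0 := by
  refine LinearMap.ext fun y => ?_
  obtain ⟨z, rfl⟩ := W.mkQ_surjective y
  exact (Submodule.Quotient.mk_eq_zero W).2 (h' ⟨z, rfl⟩)

theorem stab {V : Type} [AddCommGroup V] [Module F2 V] (T A f : Module.End F2 V)
    (h1 : ∀ y, T (f y) = f (T y)) (h2 : ∀ y, A (f y) = f (A y)) :
    LinearMap.range (T - 1) ⊔ LinearMap.range A ≤
      (LinearMap.range (T - 1) ⊔ LinearMap.range A).comap f := by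
  refine sup_le ?_ ?_
  · rintro _ ⟨y, rfl⟩
    refine Submodule.mem_sup_left ⟨f y, ?_⟩
    simp only [LinearMap.sub_apply, Module.End.one_apply, map_sub, h1]
  · rintro _ ⟨y, rfl⟩
    exact Submodule.mem_sup_right ⟨f y, h2 y⟩

end Sys

end LWA

open LWA Module in
theorem rowLWA : OfLWA := by
  intro _ hL hC hY hF hE ι _ _ ℓ S μ pr P J γ i1 hA hb ho hv hγ
  have ad := ho.adm
  obtain ⟨-, -, -, -, -, -, -, l0, e0, -⟩ := hC.lab ι S.Φ pr P i1 hA.one hb
  have ts := rd_comm ad.ts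
  have tu := rd_comm ad.tu
  have su := rd_comm ad.su
  have dV : γ * 2 ^ (μ.a + 1) ≤ finrank F2 (Vb ℓ) := by simpa using hγ
  have A : 2 ^ γ ≤ Nat.card (Vb ℓ ⧸ (LinearMap.range (toLin' (bar μ.g) - 1) ⊔
      LinearMap.range (toLin' (bar μ.u)))) →
      BadLo (fun i => lev (pr i)) (fun i => eps (pr i)) i1 (Sm0 pr P) γ μ.a false := fun h => by
    obtain ⟨x, xt, m, hs⟩ := sys hL hC hY hF S μ pr P J i1 hA hb ho hv _ le_sup_left
      (stab _ _ _ ts fun y => (su y).symm) (stab _ _ _ tu fun _ => rfl)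
    rw [mapQ_zero _ (toLin' (bar μ.u)) _ le_sup_right] at hs
    exact coreA hE l0 e0 hs h
  by_cases ha : μ.a = 0
  · refine .inl (A (pick0 _ _ (nil ad) dV ?_))
    rw [eq_bot_iff]
    rintro _ ⟨y, rfl⟩
    obtain ⟨x, rfl⟩ := rd_surj y
    rw [← rd_bar, rd_mu le_rfl (ad.h0 ha x)]
    exact Submodule.zero_mem _
  · refine (pick1 _ (toLin' (bar μ.s)) (toLin' (bar μ.u)) (nil ad) dV (fun y => ?_)
      (us ad ha)).imp A fun h => ?_
    · simp only [LinearMap.sub_apply, Module.End.one_apply, map_sub, tu]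
    · obtain ⟨x, xt, m, hs⟩ := sys hL hC hY hF S μ pr P J i1 hA hb ho hv _ le_sup_left
        (stab _ _ _ ts fun _ => rfl) (stab _ _ _ tu su)
      rw [mapQ_zero _ (toLin' (bar μ.s)) _ le_sup_right] at hs
      exact coreB hE l0 e0 ha hs h

end Pool.Agent.MP_1246c0_nt.H25
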