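import Pool.Agent.MP_1246c0_nt.H25.SpecN

/-! Most integers do not have too many prime factors of the various kinds. -/

namespace Pool.Agent.MP_1246c0_nt.H25

open Finset Filter Pool.Agent.MP_db5b97_nt.H85
open Pool.Agent.MP_1246c0_nt.H12

namespace NU

open Classical in
/-- integers with many prime factors of a given kind -/
noncomputable def BS (X y t : ℕ) (Q : ℕ → Prop) : Finset ℕ :=
  (Icc 1 X).filter fun d => ∃ s : Finset ℕ, t ≤ s.card ∧ ∀ l ∈ s, l ∈ d.primeFactors ∧ l ≤ y ∧ Q l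

theorem mem_BS {X y t : ℕ} {Q : ℕ → Prop} {d : ℕ} (h1 : 1 ≤ d) (h2 : d ≤ X) (s : Finset ℕ)
    (hs : t ≤ s.card) (h : ∀ l ∈ s, l ∈ d.primeFactors ∧ l ≤ y ∧ Q l) : d ∈ BS X y t Q := by
  classical
  unfold BS
  rw [mem_filter]
  exact ⟨mem_Icc.2 ⟨h1, h2⟩, s, hs, h⟩

theorem bs_mul (hT : SHT) (X y t : ℕ) (Q : ℕ → Prop) :
    (t : ℝ) * (BS X y t Q).card ≤ X * RS 0 y Q := by
  classical
  have h := hT.many X t ((Ioc 0 y).filter fun p => p.Prime ∧ Q p)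
  have e : RS 0 y Q = ∑ p ∈ (Ioc 0 y).filter fun p => p.Prime ∧ Q p, 1 / (p : ℝ) := by
    unfold RS
    congr
  rw [e]
  refine le_trans (mul_le_mul_of_nonneg_left ?_ (Nat.cast_nonneg t)) h
  rw [Nat.cast_le, ← Set.ncard_coe_finset]
  refine Set.ncard_le_ncard ?_ ((Set.finite_Iic X).subset fun d hd => hd.2.1)
  intro d hd
  rw [mem_coe] at hd
  unfold BS at hd
  rw [mem_filter, mem_Icc] at hd
  obtain ⟨⟨h1, h2⟩, s, hs, hl⟩ := hd
  refine ⟨h1, h2, hs.trans (card_le_card fun l hls => ?_)⟩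
  obtain ⟨a, b, c⟩ := hl l hls
  have hp := Nat.prime_of_mem_primeFactors a
  exact mem_filter.2 ⟨mem_filter.2 ⟨mem_Ioc.2 ⟨hp.pos, b⟩, hp, c⟩, Nat.dvd_of_mem_primeFactors a⟩

theorem bs_le (hT : SHT) (X y t : ℕ) (Q : ℕ → Prop) (c : ℝ) (h : RS 0 y Q ≤ c * (t + 1)) :
    ((BS X y (t + 1) Q).card : ℝ) ≤ c * X := by
  have h1 := bs_mul hT X y (t + 1) Q
  have ht : (0 : ℝ) < (t : ℝ) + 1 := by positivity
  have h2 : (X : ℝ) * RS 0 y Q ≤ X * (c * (t + 1)) :=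
    mul_le_mul_of_nonneg_left h (Nat.cast_nonneg X)
  push_cast at h1
  refine le_of_mul_le_mul_left ?_ ht
  calc ((t : ℝ) + 1) * (BS X y (t + 1) Q).card ≤ X * (c * (t + 1)) := h1.trans h2
    _ = (t + 1) * (c * X) := by ring

theorem lev_two : lev 2 = 0 := by
  have h : padicValNat 2 3 = 0 := padicValNat.eq_zero_of_not_dvd (by norm_num)
  unfold lev
  norm_num [h]

theorem unit_md (hD : SDEC) (hA : SDAT) (hJ : SDJ) {n j tp l : ℕ} (D : Dat n) (hj : 1 ≤ j)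
    (htp : n + 3 ≤ tp) (hl : l.Prime) (hv : tp - 2 ≤ lev l) (hd : Dj j (D.cc l)) :
    l % 2 ^ tp = 1 := by
  have h2 : l ≠ 2 := by
    rintro rfl
    rw [lev_two] at hv
    omega
  have hodd : l % 2 = 1 := by
    rcases hl.eq_two_or_odd with h | h
    · exact absurd h h2
    · exact h
  have he : eps l = 0 := by
    rw [← hA.ac n D l ⟨hl, h2, by omega⟩]
    exact hJ.aug n j _ hj hd
  have h := ((hD.cls l hodd hl.one_lt).2.2 (tp - 2)).1.1 ⟨hv, he⟩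
  rwa [show tp - 2 + 2 = tp by omega] at h

/-- the union of the exceptional sets -/
noncomputable def UU (X j0 K j : ℕ) {n : ℕ} (D : Dat n) : Finset ℕ :=
  (range (tpX X j0 + 1)).biUnion
      (fun a => BS X X (2 ^ (2 * jj (tpX X j0) j0 a) + 1) fun l => a ≤ lev l) ∪
    BS X (YY X) (0 + 1) (fun l => tpX X j0 / 2 + 1 ≤ lev l) ∪
    BS X (YY X) (xx (tpX X j0) j0 (tpX X j0 / 2 + 1) + 1) (fun _ => True) ∪
    BS X X (m0 X + 1) (fun _ => True) ∪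
    BS X X (K + 1) (fun l => tpX X j0 - 2 ≤ lev l) ∪
    BS X X (0 + 1) fun l => l % 2 ^ tpX X j0 = 1 ∧ Dj j (D.cc l)

theorem cover (hD : SDEC) (hA : SDAT) (hJ : SDJ) {X j0 K j n : ℕ} (D : Dat n) (hj : 1 ≤ j)
    (htp : n + 3 ≤ tpX X j0) {d : ℕ} (h1 : 1 ≤ d) (h2 : d ≤ X) (hd : d ∉ UU X j0 K j D) :
    NdU X j0 K j D d := by
  have hle : ∀ l ∈ d.primeFactors, l ≤ X := fun l hl =>
    (Nat.le_of_mem_primeFactors hl).trans h2
  unfold UU at hd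
  simp only [mem_union, mem_biUnion, not_or, not_exists, not_and] at hd
  obtain ⟨⟨⟨⟨⟨a1, a2⟩, a3⟩, a4⟩, a5⟩, a6⟩ := hd
  have hsm : ∀ l ∈ sm X d, l ∈ d.primeFactors ∧ l ≤ YY X := fun l hl => mem_filter.1 hl
  have hbg : ∀ l ∈ bg X d, l ∈ d.primeFactors := fun l hl => (mem_filter.1 hl).1
  refine ⟨fun a ha ε => ?_, fun l hl => ?_, ?_, ?_, ?_, ?_, fun l hl hv hdj => ?_⟩
  · by_contra hc
    refine a1 a (mem_range.2 (by omega)) (mem_BS h1 h2 _ (Nat.succ_le_of_lt (not_le.1 hc)) ?_)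
    intro l hl
    obtain ⟨b1, b2, -⟩ := mem_filter.1 hl
    exact ⟨hbg l b1, hle l (hbg l b1), b2.ge⟩
  · by_contra hc
    refine a2 (mem_BS h1 h2 {l} (by simp) ?_)
    intro l' hl'
    rw [mem_singleton.1 hl']
    exact ⟨(hsm l hl).1, (hsm l hl).2, Nat.succ_le_of_lt (not_le.1 hc)⟩
  · by_contra hc
    exact a3 (mem_BS h1 h2 _ (Nat.succ_le_of_lt (not_le.1 hc))
      fun l hl => ⟨(hsm l hl).1, (hsm l hl).2, trivial⟩)
  · by_contra hc
    exact a4 (mem_BS h1 h2 _ (Nat.succ_le_of_lt (not_le.1 hc))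
      fun l hl => ⟨(hsm l hl).1, hle l (hsm l hl).1, trivial⟩)
  · by_contra hc
    exact a4 (mem_BS h1 h2 _ (Nat.succ_le_of_lt (not_le.1 hc))
      fun l hl => ⟨hbg l hl, hle l (hbg l hl), trivial⟩)
  · by_contra hc
    refine a5 (mem_BS h1 h2 _ (Nat.succ_le_of_lt (not_le.1 hc)) fun l hl => ?_)
    obtain ⟨b1, b2⟩ := mem_filter.1 hl
    exact ⟨b1, hle l b1, b2⟩
  · refine a6 (mem_BS h1 h2 {l} (by simp) ?_)
    intro l' hl'
    rw [mem_singleton.1 hl']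
    exact ⟨hl, hle l hl, unit_md hD hA hJ D hj htp (Nat.prime_of_mem_primeFactors hl) hv hdj, hdj⟩

theorem geo (j0 tp : ℕ) : ∑ a ∈ range (tp + 1), 1 / (2 : ℝ) ^ jj tp j0 a ≤ 2 / 2 ^ j0 := by
  have key : ∀ t : ℕ, ∑ a ∈ range (t + 1), 1 / (2 : ℝ) ^ jj t j0 a = (2 - 1 / 2 ^ t) / 2 ^ j0 := by
    intro t
    induction t with
    | zero => simp [jj]; norm_num
    | succ t ih =>
      rw [sum_range_succ']
      have e : ∀ a ∈ range (t + 1), 1 / (2 : ℝ) ^ jj (t + 1) j0 (a + 1) = 1 / 2 ^ jj t j0 a := by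
        intro a _
        have : jj (t + 1) j0 (a + 1) = jj t j0 a := by unfold jj; omega
        rw [this]
      rw [sum_congr rfl e, ih]
      have : jj (t + 1) j0 0 = j0 + (t + 1) := by unfold jj; omega
      rw [this, pow_add, pow_succ]
      field_simp
      ring
  rw [key]
  have : (0 : ℝ) ≤ 1 / 2 ^ tp := by positivity
  exact div_le_div_of_nonneg_right (by linarith) (by positivity)

theorem tail_le {C : ℝ} (hC : 0 ≤ C) (a : ℕ) : C / (6 / 5) ^ a ≤ C :=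
  div_le_self hC (one_le_pow₀ (by norm_num))

/-- the levels -/
theorem bA (hT : SHT) {C : ℝ} (hC : 0 ≤ C) {X j0 tp : ℕ}
    (hl : ∀ a, RS 0 X (fun p => a ≤ lev p) ≤ 3 * ll X / 2 ^ a + C / (6 / 5) ^ a)
    (hr : ll X ≤ 2 ^ (tp + j0 + 6)) :
    (((range (tp + 1)).biUnion
      fun a => BS X X (2 ^ (2 * jj tp j0 a) + 1) fun l => a ≤ lev l).card : ℝ) ≤
        (192 + C) * (2 / 2 ^ j0) * X := by
  have h1 : ∀ a ∈ range (tp + 1), ((BS X X (2 ^ (2 * jj tp j0 a) + 1) fun l => a ≤ lev l).card : ℝ)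
      ≤ (192 + C) * (1 / 2 ^ jj tp j0 a) * X := by
    intro a ha
    have ha' : a ≤ tp := Nat.lt_succ_iff.1 (mem_range.1 ha)
    refine bs_le hT _ _ _ _ _ ((hl a).trans ?_)
    have e : (2 : ℝ) ^ (tp + j0 + 6) = 64 * 2 ^ jj tp j0 a * 2 ^ a := by
      have : tp + j0 + 6 = 6 + jj tp j0 a + a := by unfold jj; omega
      rw [this, pow_add, pow_add]
      norm_num
    have hJ : (1 : ℝ) ≤ 2 ^ jj tp j0 a := one_le_pow₀ (by norm_num)
    have b1 : 3 * ll X / 2 ^ a ≤ 192 * 2 ^ jj tp j0 a := by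
      rw [div_le_iff₀ (by positivity)]
      rw [e] at hr
      linarith
    have b2 := tail_le hC a
    have b3 : C ≤ C * 2 ^ jj tp j0 a := le_mul_of_one_le_right hC hJ
    have b4 : (192 + C) * (1 / 2 ^ jj tp j0 a) * (((2 ^ (2 * jj tp j0 a) : ℕ) : ℝ) + 1) =
        (192 + C) * 2 ^ jj tp j0 a + (192 + C) * (1 / 2 ^ jj tp j0 a) := by
      push_cast
      rw [two_mul, pow_add]
      field_simp
    have b5 : 0 ≤ (192 + C) * (1 / (2 : ℝ) ^ jj tp j0 a) := by positivity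
    rw [b4]
    linarith
  calc (((range (tp + 1)).biUnion
      fun a => BS X X (2 ^ (2 * jj tp j0 a) + 1) fun l => a ≤ lev l).card : ℝ)
      ≤ ∑ a ∈ range (tp + 1), ((BS X X (2 ^ (2 * jj tp j0 a) + 1) fun l => a ≤ lev l).card : ℝ) := by
        exact_mod_cast card_biUnion_le
    _ ≤ ∑ a ∈ range (tp + 1), (192 + C) * (1 / 2 ^ jj tp j0 a) * X := sum_le_sum h1
    _ = (192 + C) * (∑ a ∈ range (tp + 1), 1 / (2 : ℝ) ^ jj tp j0 a) * X := by
        rw [mul_sum, sum_mul]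
    _ ≤ _ := by
        have := geo j0 tp
        gcongr

theorem small (C η : ℝ) (c : ℕ) (hη : 0 < η) :
    ∃ h0 : ℕ, ∀ h, h0 ≤ h → 18 * (2 * (h : ℝ) + c) / 2 ^ h + C / (6 / 5) ^ h ≤ η := by
  have t1 := tendsto_pow_const_div_const_pow_of_one_lt 1 (show (1 : ℝ) < 2 by norm_num)
  have t0 := tendsto_pow_const_div_const_pow_of_one_lt 0 (show (1 : ℝ) < 2 by norm_num)
  have t2 := tendsto_pow_const_div_const_pow_of_one_lt 0 (show (1 : ℝ) < 6 / 5 by norm_num)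
  have t := ((t1.const_mul 36).add (t0.const_mul (18 * (c : ℝ)))).add (t2.const_mul C)
  simp only [mul_zero, add_zero] at t
  obtain ⟨h0, hh⟩ := eventually_atTop.1 (t.eventually (gt_mem_nhds hη))
  refine ⟨h0, fun h hle => le_trans (le_of_eq ?_) (hh h hle).le⟩
  ring

theorem pick (A η : ℝ) (hη : 0 < η) : ∃ j : ℕ, 1 ≤ j ∧ ∀ i, j ≤ i → A / 2 ^ i ≤ η := by
  have t0 := tendsto_pow_const_div_const_pow_of_one_lt 0 (show (1 : ℝ) < 2 by norm_num)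
  have t := t0.const_mul A
  simp only [mul_zero] at t
  obtain ⟨h0, hh⟩ := eventually_atTop.1 (t.eventually (gt_mem_nhds hη))
  refine ⟨h0 + 1, by omega, fun h hle => le_trans (le_of_eq ?_) (hh h (by omega)).le⟩
  ring

theorem sq_le_log {X tp j0 : ℕ} (hX : 3 ≤ X) (h : (2 : ℝ) ^ (tp + j0 + 5) ≤ ll X) :
    0 < Real.log X ∧ (tp : ℝ) ^ 2 ≤ Real.log X := by
  have hX' : (3 : ℝ) ≤ X := by exact_mod_cast hX
  have h0 : 0 < Real.log X := Real.log_pos (by linarith)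
  refine ⟨h0, ?_⟩
  have h1 : 2 * tp ≤ 2 ^ (tp + j0 + 5) := by
    have a : tp < 2 ^ tp := Nat.lt_two_pow_self
    have b : 2 ^ (tp + 1) ≤ 2 ^ (tp + j0 + 5) := Nat.pow_le_pow_right (by norm_num) (by omega)
    rw [pow_succ] at b
    omega
  have h2 : 2 * (tp : ℝ) ≤ ll X := le_trans (by exact_mod_cast h1) h
  have h3 : (0 : ℝ) ≤ tp := Nat.cast_nonneg tp
  have h4 := Real.quadratic_le_exp_of_nonneg (show 0 ≤ ll X by linarith)
  have h5 : Real.exp (ll X) = Real.log X := Real.exp_log h0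
  rw [← h5]
  nlinarith

end NU

open NU in
theorem rowNU : OfNU := by
  intro hD hA hP hP2 hJ hU hW hT ε hε
  obtain ⟨C, hC, hl⟩ := hW.lv
  obtain ⟨C', hC', ht⟩ := hW.tot
  have hη : 0 < ε / 6 := by positivity
  obtain ⟨j1, -, hj1⟩ := pick ((192 + C) * 2) (ε / 6) hη
  refine ⟨j1, fun j0 hj0 => ?_⟩
  obtain ⟨j, hj, hjb⟩ := pick (24 * 2 ^ (j0 + 6)) (ε / 12) (by positivity)
  obtain ⟨K, hK⟩ := exists_nat_ge ((3 * 2 ^ (j0 + 8) + C) / (ε / 6))
  refine ⟨K, j, fun n D hjn => ?_⟩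
  obtain ⟨k0, hk0⟩ := hU n j D (ε / 36) hjn (by positivity)
  obtain ⟨h0, hh0⟩ := small C (ε / 6) (j0 + 6) hη
  obtain ⟨K', hK'⟩ := exists_nat_ge ((6 + C') / (ε / 6))
  filter_upwards [hP j0 (K' + 2 * h0 + k0 + n + 3 : ℕ), hP2 0, eventually_ge_atTop 3]
    with X hp hp2 hX
  obtain ⟨p1, -, -, -, p5, p6, p7, -, -, -, -, p12, -⟩ := hp
  obtain ⟨-, q2, -, -, -, -, -, -, -, q10, -⟩ := hp2
  have htp : K' + 2 * h0 + k0 + n + 3 ≤ tpX X j0 := by exact_mod_cast p7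
  have hXr : (0 : ℝ) ≤ X := Nat.cast_nonneg X
  have hK1 : (K' : ℝ) + 1 ≤ ((K' + 2 * h0 + k0 + n + 3 : ℕ) : ℝ) := by
    exact_mod_cast (by omega : K' + 1 ≤ K' + 2 * h0 + k0 + n + 3)
  have hK0 : (0 : ℝ) ≤ K' := Nat.cast_nonneg K'
  have hr1 : 1 ≤ ll X := by linarith
  have hlr : 0 ≤ Real.log (ll X) := Real.log_nonneg hr1
  have hKe : 6 + C' ≤ K' * (ε / 6) := (div_le_iff₀ hη).1 hK'
  have b1 := bA hT hC (fun a => hl a X hX) p6.le
  have b1' : (192 + C) * (2 / 2 ^ j0) * (X : ℝ) ≤ ε / 6 * X := by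
    refine mul_le_mul_of_nonneg_right (le_trans (le_of_eq ?_) (hj1 j0 hj0)) hXr
    ring
  have b2 : ((BS X (YY X) (0 + 1) fun l => tpX X j0 / 2 + 1 ≤ lev l).card : ℝ) ≤ ε / 6 * X := by
    refine bs_le hT _ _ _ _ _ ((hl _ _ q2).trans ?_)
    have c1 := hh0 (tpX X j0 / 2 + 1) (by omega)
    have c2 : Real.log (ll X) ≤ 2 * ((tpX X j0 / 2 + 1 : ℕ) : ℝ) + (j0 + 6 : ℕ) := by
      have d1 : Real.log (ll X) ≤ Real.log (2 ^ (tpX X j0 + j0 + 6)) :=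
        Real.log_le_log (by linarith) p6.le
      rw [Real.log_pow] at d1
      have d2 : Real.log 2 ≤ 1 := by
        have := Real.log_le_sub_one_of_pos (show (0 : ℝ) < 2 by norm_num)
        linarith
      have d3 : ((tpX X j0 + j0 + 6 : ℕ) : ℝ) * Real.log 2 ≤ (tpX X j0 + j0 + 6 : ℕ) :=
        mul_le_of_le_one_right (Nat.cast_nonneg _) d2
      have d4 : ((tpX X j0 + j0 + 6 : ℕ) : ℝ) ≤ ((2 * (tpX X j0 / 2 + 1) + (j0 + 6) : ℕ) : ℝ) :=
        Nat.cast_le.2 (by omega)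
      rw [Nat.cast_add (2 * (tpX X j0 / 2 + 1)), Nat.cast_mul, Nat.cast_ofNat] at d4
      linarith
    have c3 : 3 * ll (YY X) / 2 ^ (tpX X j0 / 2 + 1) ≤
        18 * (2 * ((tpX X j0 / 2 + 1 : ℕ) : ℝ) + (j0 + 6 : ℕ)) / 2 ^ (tpX X j0 / 2 + 1) :=
      div_le_div_of_nonneg_right (by linarith) (by positivity)
    rw [Nat.cast_zero, zero_add, mul_one]
    linarith
  have b3 : ((BS X (YY X) (xx (tpX X j0) j0 (tpX X j0 / 2 + 1) + 1) fun _ => True).card : ℝ) ≤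
      ε / 6 * X := by
    refine bs_le hT _ _ _ _ _ ((ht _ q2).trans ?_)
    have c1 : (K' : ℝ) * (Real.log (ll X) + 1) ≤ xx (tpX X j0) j0 (tpX X j0 / 2 + 1) :=
      le_trans (mul_le_mul_of_nonneg_right (by linarith) (by linarith)) p12
    have c2 : (6 + C') * (Real.log (ll X) + 1) ≤ K' * (ε / 6) * (Real.log (ll X) + 1) :=
      mul_le_mul_of_nonneg_right hKe (by linarith)
    have c3 : ε / 6 * (K' * (Real.log (ll X) + 1)) ≤ ε / 6 * xx (tpX X j0) j0 (tpX X j0 / 2 + 1) :=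
      mul_le_mul_of_nonneg_left c1 hη.le
    have c4 : 0 ≤ C' * Real.log (ll X) := mul_nonneg hC' hlr
    nlinarith
  have b4 : ((BS X X (m0 X + 1) fun _ => True).card : ℝ) ≤ ε / 6 * X := by
    refine bs_le hT _ _ _ _ _ ((ht _ hX).trans ?_)
    have c1 : ll X ^ 2 ≤ (m0 X : ℝ) + 1 := (Nat.lt_floor_add_one _).le
    have c2 : K' * (ε / 6) ≤ ll X * (ε / 6) := mul_le_mul_of_nonneg_right (by linarith) hη.le
    have c3 : (6 + C') * ll X ≤ ll X * (ε / 6) * ll X :=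
      mul_le_mul_of_nonneg_right (hKe.trans c2) (by linarith)
    have c4 : ε / 6 * ll X ^ 2 ≤ ε / 6 * ((m0 X : ℝ) + 1) := mul_le_mul_of_nonneg_left c1 hη.le
    have c5 : C' ≤ C' * ll X := le_mul_of_one_le_right hC' hr1
    nlinarith
  have b5 : ((BS X X (K + 1) fun l => tpX X j0 - 2 ≤ lev l).card : ℝ) ≤ ε / 6 * X := by
    refine bs_le hT _ _ _ _ _ ((hl _ _ hX).trans ?_)
    have e : (2 : ℝ) ^ (tpX X j0 + j0 + 6) = 2 ^ (j0 + 8) * 2 ^ (tpX X j0 - 2) := by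
      rw [← pow_add]
      congr 1
      omega
    have c1 : 3 * ll X / 2 ^ (tpX X j0 - 2) ≤ 3 * 2 ^ (j0 + 8) := by
      rw [div_le_iff₀ (by positivity)]
      rw [e] at p6
      linarith
    have c2 := tail_le hC (tpX X j0 - 2)
    have c3 := (div_le_iff₀ hη).1 hK
    nlinarith
  have b6 : ((BS X X (0 + 1) fun l => l % 2 ^ tpX X j0 = 1 ∧ Dj j (D.cc l)).card : ℝ) ≤
      ε / 6 * X := by
    refine bs_le hT _ _ _ _ _ ((hW.up _ X hX).trans ?_)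
    obtain ⟨s0, s1⟩ := sq_le_log hX p5
    have ht0 : (0 : ℝ) < tpX X j0 := by exact_mod_cast (by omega : 0 < tpX X j0)
    have c1 := hk0 (tpX X j0) (by omega) (1 / Real.log X) (by positivity)
      (one_div_le_one_div_of_le (by positivity) s1)
    rw [one_div_one_div] at c1
    have c2 : 8 * Real.log (Real.log X) / 2 ^ (tpX X j0 + j) ≤ 8 * 2 ^ (j0 + 6) / 2 ^ j := by
      have e : (2 : ℝ) ^ (tpX X j0 + j0 + 6) = 2 ^ (j0 + 6) * 2 ^ tpX X j0 := by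
        rw [← pow_add]
        congr 1
        omega
      have c3 : Real.log (Real.log X) ≤ 2 ^ (j0 + 6) * 2 ^ tpX X j0 := e ▸ p6.le
      calc 8 * Real.log (Real.log X) / 2 ^ (tpX X j0 + j)
          ≤ 8 * (2 ^ (j0 + 6) * 2 ^ tpX X j0) / 2 ^ (tpX X j0 + j) :=
            div_le_div_of_nonneg_right (by linarith) (by positivity)
        _ = 8 * 2 ^ (j0 + 6) / 2 ^ j := by
            rw [pow_add (2 : ℝ) (tpX X j0) j]
            field_simp
    have c4 := hjb j le_rfl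
    have c5 : (24 : ℝ) * 2 ^ (j0 + 6) / 2 ^ j = 3 * (8 * 2 ^ (j0 + 6) / 2 ^ j) := by ring
    rw [Nat.cast_zero, zero_add, mul_one]
    linarith
  have hsub : {d : ℕ | 1 ≤ d ∧ d ≤ X ∧ ¬NdU X j0 K j D d} ⊆ (UU X j0 K j D : Set ℕ) := by
    intro d hd
    by_contra hc
    exact hd.2.2 (cover hD hA hJ D hj (by omega) hd.1 hd.2.1 hc)
  have hcard : ({d : ℕ | 1 ≤ d ∧ d ≤ X ∧ ¬NdU X j0 K j D d}.ncard : ℝ) ≤ (UU X j0 K j D).card := by
    rw [Nat.cast_le, ← Set.ncard_coe_finset]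
    exact Set.ncard_le_ncard hsub (Finset.finite_toSet _)
  have hun : ∀ s t : Finset ℕ, ∀ a b : ℝ, (s.card : ℝ) ≤ a → (t.card : ℝ) ≤ b →
      ((s ∪ t).card : ℝ) ≤ a + b := by
    intro s t a b h1 h2
    have h3 : ((s ∪ t).card : ℝ) ≤ s.card + t.card := by exact_mod_cast card_union_le s t
    linarith
  have hfin := hun _ _ _ _ (hun _ _ _ _ (hun _ _ _ _ (hun _ _ _ _ (hun _ _ _ _ (b1.trans b1') b2)
    b3) b4) b5) b6
  refine hcard.trans (le_trans hfin (le_of_eq ?_))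
  ring

end Pool.Agent.MP_1246c0_nt.H25
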